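import Pool.Agent.Work.MP_69d501_gt.Defs

set_option autoImplicit false

namespace Pool.Agent.Work.MP_69d501_gt

/-! ### labels -/

lemma mem_labels {w : List Letter} {c : ℕ} : c ∈ labels w ↔ ∃ o s, (c, o, s) ∈ w := by
  unfold labels
  simp only [List.mem_toFinset, List.mem_map, Prod.exists, exists_and_right, exists_eq_right]

@[simp] lemma labels_append (u v : List Letter) : labels (u ++ v) = labels u ∪ labels v := by
  unfold labels; simp

@[simp] lemma labels_nil : labels [] = ∅ := rfl

@[simp] lemma labels_cons (l : Letter) (w : List Letter) :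
    labels (l :: w) = insert l.1 (labels w) := by
  unfold labels; simp

lemma labels_perm {u v : List Letter} (h : u.Perm v) : labels u = labels v := by
  ext c; simp only [mem_labels, h.mem_iff]

lemma perm_dir (t : Bool) (l : List Letter) : (dir t l).Perm l := by
  unfold dir; split
  · exact List.Perm.refl _
  · exact List.reverse_perm l

@[simp] lemma labels_dir (t : Bool) (l : List Letter) : labels (dir t l) = labels l :=
  labels_perm (perm_dir t l)

lemma perm_arrange (e : Bool) (M u B : List Letter) : (arrange e M u B).Perm (M ++ u ++ B) := by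
  classical
  unfold arrange; split
  · exact List.Perm.refl _
  · rw [List.perm_iff_count]
    intro a
    simp only [List.count_append]
    ring

lemma labels_map (σ : Equiv.Perm ℕ) (w : List Letter) :
    labels (w.map fun l => (σ l.1, l.2)) = (labels w).image σ := by
  ext c
  simp only [mem_labels, List.mem_map, Finset.mem_image, Prod.exists, Prod.mk.injEq]
  constructor
  · rintro ⟨o, s, c', o', s', h, rfl, rfl, rfl⟩
    exact ⟨c', ⟨_, _, h⟩, rfl⟩
  · rintro ⟨c', ⟨o, s, h⟩, rfl⟩
    exact ⟨o, s, c', o, s, h, rfl, rfl, rfl⟩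

/-! ### Gauss words -/

lemma isGauss_perm {w w' : List Letter} (h : w.Perm w') : IsGauss w ↔ IsGauss w' := by
  unfold IsGauss
  simp only [h.nodup_iff, h.mem_iff]

lemma isGauss_cons_pair {w : List Letter} {c : ℕ} {o s : Bool} (hc : c ∉ labels w) :
    IsGauss ((c, o, s) :: (c, !o, s) :: w) ↔ IsGauss w := by
  have hc' : ∀ o s, (c, o, s) ∉ w := fun o s h => hc (mem_labels.2 ⟨o, s, h⟩)
  unfold IsGauss
  constructor
  · rintro ⟨h1, h2⟩
    refine ⟨(List.nodup_cons.1 (List.nodup_cons.1 h1).2).2, ?_⟩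
    intro c' o' s' h
    have hne : c' ≠ c := by
      rintro rfl; exact hc' _ _ h
    have := h2 c' o' s' (by simp [h])
    simpa [hne] using this
  · rintro ⟨h1, h2⟩
    refine ⟨?_, ?_⟩
    · simp [h1, hc']
    · intro c' o' s' h
      by_cases hcc : c' = c
      · subst hcc
        have h' : (o' = o ∧ s' = s) ∨ (o' = !o ∧ s' = s) := by
          simpa [hc'] using h
        rcases h' with ⟨rfl, rfl⟩ | ⟨rfl, rfl⟩ <;> simp [hc']
      · have h' : (c', o', s') ∈ w := by simpa [hcc] using h
        simpa [hcc] using h2 c' o' s' h'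

lemma isGauss_relabel_aux (σ : Equiv.Perm ℕ) (w : List Letter) (h : IsGauss w) :
    IsGauss (w.map fun l => (σ l.1, l.2)) := by
  have hinj : Function.Injective (fun l : Letter => ((σ l.1, l.2) : Letter)) := by
    intro l l' h
    simp only [Prod.mk.injEq, EmbeddingLike.apply_eq_iff_eq] at h
    exact Prod.ext h.1 h.2
  have hm : ∀ (c : ℕ) (o s : Bool), (c, o, s) ∈ (w.map fun l => ((σ l.1, l.2) : Letter)) ↔
      (σ.symm c, o, s) ∈ w := by
    intro c o s
    constructor
    · intro h
      rw [List.mem_map] at h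
      obtain ⟨⟨c', o', s'⟩, h1, h2⟩ := h
      simp only [Prod.mk.injEq] at h2
      obtain ⟨rfl, rfl, rfl⟩ := h2
      simpa using h1
    · intro h
      rw [List.mem_map]
      exact ⟨_, h, by simp⟩
  refine ⟨h.1.map hinj, ?_⟩
  intro c o s hc
  rw [hm] at hc
  rw [hm, hm]
  exact h.2 _ _ _ hc

lemma relabel_relabel (σ τ : Equiv.Perm ℕ) (w : List Letter) :
    ((w.map fun l => ((σ l.1, l.2) : Letter)).map fun l => ((τ l.1, l.2) : Letter))
      = w.map fun l => (((σ.trans τ) l.1, l.2) : Letter) := by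
  rw [List.map_map]; rfl

lemma relabel_symm (σ : Equiv.Perm ℕ) (w : List Letter) :
    ((w.map fun l => ((σ l.1, l.2) : Letter)).map fun l => ((σ.symm l.1, l.2) : Letter)) = w := by
  rw [relabel_relabel]; simp

lemma isGauss_relabel (σ : Equiv.Perm ℕ) (w : List Letter) :
    IsGauss (w.map fun l => (σ l.1, l.2)) ↔ IsGauss w := by
  constructor
  · intro h
    have := isGauss_relabel_aux σ.symm _ h
    rwa [relabel_symm] at this
  · exact isGauss_relabel_aux σ w

lemma perm_r1 (u v : List Letter) (c : ℕ) (o s : Bool) :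
    (u ++ [(c, o, s), (c, !o, s)] ++ v).Perm ((c, o, s) :: (c, !o, s) :: (u ++ v)) := by
  rw [List.append_assoc]
  refine List.perm_append_comm.trans ?_
  rw [List.append_assoc]
  refine (List.Perm.append_left _ List.perm_append_comm).trans ?_
  exact List.Perm.refl _

lemma perm_r2 (u v w P Q : List Letter) : 
    (u ++ P ++ v ++ Q ++ w).Perm (P ++ Q ++ (u ++ v ++ w)) := by
  classical
  rw [List.perm_iff_count]
  intro a
  simp only [List.count_append]
  ring

lemma move_isGauss {w w' : List Letter} (h : Move w w') : IsGauss w ↔ IsGauss w' := by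
  cases h with
  | rotate u v => exact isGauss_perm List.perm_append_comm
  | relabel σ w => exact (isGauss_relabel σ w).symm
  | r1 u v c o s hc =>
    rw [isGauss_perm (perm_r1 u v c o s), isGauss_cons_pair hc]
  | r2 u v w c d o s t hcd hc hd =>
    rw [isGauss_perm (perm_r2 u v w _ _)]
    have hp : ([(c, o, s), (d, o, !s)] ++ dir t [(c, !o, s), (d, !o, !s)] ++ (u ++ v ++ w)).Perm
        ((c, o, s) :: (c, !o, s) :: (d, o, !s) :: (d, !o, !s) :: (u ++ v ++ w)) := by
      refine (List.Perm.append_right _ (List.Perm.append_left _ (perm_dir t _))).trans ?_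
      simp only [List.cons_append, List.nil_append]
      exact List.Perm.cons _ (List.Perm.swap _ _ _)
    rw [isGauss_perm hp, isGauss_cons_pair, isGauss_cons_pair hd]
    simp only [labels_cons, Finset.mem_insert, not_or]
    exact ⟨hcd, hcd, hc⟩
  | r3 u₀ u₁ u₂ u₃ x y z p q r a b c e h₁ h₂ =>
    apply isGauss_perm
    refine List.Perm.append_right _ ?_
    refine List.Perm.append ?_ ?_
    · refine List.Perm.append_right _ ?_
      refine List.Perm.append_left _ ?_
      exact (perm_dir _ _).trans (perm_dir _ _).symm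
    · refine (perm_arrange _ _ _ _).trans (List.Perm.trans ?_ (perm_arrange _ _ _ _).symm)
      refine List.Perm.append ?_ ?_
      · refine List.Perm.append_right _ ?_
        exact (perm_dir _ _).trans (perm_dir _ _).symm
      · exact (perm_dir _ _).trans (perm_dir _ _).symm


/-! ### equivalence of words -/

def R : List Letter → List Letter → Prop := Relation.EqvGen Move

lemma R.refl (w : List Letter) : R w w := Relation.EqvGen.refl w
lemma R.symm {w w' : List Letter} (h : R w w') : R w' w := Relation.EqvGen.symm _ _ h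
lemma R.trans {u v w : List Letter} (h : R u v) (h' : R v w) : R u w :=
  Relation.EqvGen.trans _ _ _ h h'
lemma R.of_move {w w' : List Letter} (h : Move w w') : R w w' := Relation.EqvGen.rel _ _ h

lemma R.isGauss {w w' : List Letter} (h : R w w') : IsGauss w ↔ IsGauss w' := by
  induction h with
  | rel _ _ h => exact move_isGauss h
  | refl _ => exact Iff.rfl
  | symm _ _ _ ih => exact ih.symm
  | trans _ _ _ _ _ ih1 ih2 => exact ih1.trans ih2

lemma R.rot (u v : List Letter) : R (u ++ v) (v ++ u) := R.of_move (Move.rotate u v)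

lemma r2_gen (u v w : List Letter) (c d : ℕ) (o s α β : Bool) (hcd : c ≠ d)
    (hc : c ∉ labels (u ++ v ++ w)) (hd : d ∉ labels (u ++ v ++ w)) :
    R (u ++ v ++ w)
      (u ++ dir α [(c, o, s), (d, o, !s)] ++ v ++ dir β [(c, !o, s), (d, !o, !s)] ++ w) := by
  cases α with
  | true => exact R.of_move (Move.r2 u v w c d o s β hcd hc hd)
  | false =>
    have h := Move.r2 u v w d c o (!s) (!β) (Ne.symm hcd) hd hc
    have h2 : dir (!β) [(d, !o, !s), (c, !o, !!s)] = dir β [(c, !o, s), (d, !o, !s)] := by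
      cases β <;> simp [dir]
    have h3 : ([(d, o, !s), (c, o, !!s)] : List Letter) = dir false [(c, o, s), (d, o, !s)] := by
      simp [dir]
    rw [h2, h3] at h
    exact R.of_move h

/-! ### crossing changes -/

lemma flip_flip (C : Finset ℕ) (w : List Letter) : flip C (flip C w) = w := by
  unfold flip
  rw [List.map_map]
  conv_rhs => rw [← List.map_id w]
  apply List.map_congr_left
  intro l _
  simp [flipLetter_flipLetter]

@[simp] lemma flip_append (C : Finset ℕ) (u v : List Letter) :
    flip C (u ++ v) = flip C u ++ flip C v := by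
  unfold flip; simp

@[simp] lemma flip_nil (C : Finset ℕ) : flip C [] = [] := rfl

@[simp] lemma flip_cons (C : Finset ℕ) (l : Letter) (w : List Letter) :
    flip C (l :: w) = flipLetter C l :: flip C w := rfl

@[simp] lemma labels_flip (C : Finset ℕ) (w : List Letter) : labels (flip C w) = labels w := by
  induction w with
  | nil => rfl
  | cons l w ih => simp [ih, flipLetter_fst]

lemma flip_eq_self {C : Finset ℕ} {w : List Letter} (h : ∀ c ∈ labels w, c ∉ C) :
    flip C w = w := by
  induction w with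
  | nil => rfl
  | cons l w ih =>
    rw [flip_cons, ih, flipLetter_of_not_mem]
    · exact h _ (by simp)
    · intro c hc; exact h c (by simp [hc])

lemma flip_flip_of_disjoint {C D : Finset ℕ} (h : Disjoint C D) (w : List Letter) :
    flip C (flip D w) = flip (C ∪ D) w := by
  unfold flip
  rw [List.map_map]
  apply List.map_congr_left
  intro l _
  simp only [Function.comp]
  unfold flipLetter
  by_cases h1 : l.1 ∈ D
  · have h2 : l.1 ∉ C := fun h' => (Finset.disjoint_left.1 h h') h1
    simp [h1, h2]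
  · by_cases h2 : l.1 ∈ C <;> simp [h1, h2]

/-! ### chains of insertions -/

inductive Step (A : Finset ℕ) : List Letter → List Letter → Prop
  | rotate (u v : List Letter) : Step A (u ++ v) (v ++ u)
  | r1 (u v : List Letter) (c : ℕ) (o s : Bool) (hcA : c ∉ A) (hc : c ∉ labels (u ++ v)) :
      Step A (u ++ v) (u ++ [(c, o, s), (c, !o, s)] ++ v)
  | r2 (u v w : List Letter) (c d : ℕ) (o s t : Bool) (hcA : c ∉ A) (hdA : d ∉ A) (hcd : c ≠ d)
      (hc : c ∉ labels (u ++ v ++ w)) (hd : d ∉ labels (u ++ v ++ w)) :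
      Step A (u ++ v ++ w)
        (u ++ [(c, o, s), (d, o, !s)] ++ v ++ dir t [(c, !o, s), (d, !o, !s)] ++ w)

lemma Step.move {A : Finset ℕ} {X Y : List Letter} (h : Step A X Y) : Move X Y := by
  cases h with
  | rotate u v => exact Move.rotate u v
  | r1 u v c o s hcA hc => exact Move.r1 u v c o s hc
  | r2 u v w c d o s t hcA hdA hcd hc hd => exact Move.r2 u v w c d o s t hcd hc hd

lemma Step.mono {A B : Finset ℕ} (hAB : A ⊆ B) {X Y : List Letter} (h : Step B X Y) :
    Step A X Y := by
  cases h with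
  | rotate u v => exact Step.rotate u v
  | r1 u v c o s hcA hc => exact Step.r1 u v c o s (fun h => hcA (hAB h)) hc
  | r2 u v w c d o s t hcA hdA hcd hc hd =>
    exact Step.r2 u v w c d o s t (fun h => hcA (hAB h)) (fun h => hdA (hAB h)) hcd hc hd

lemma Step.mem {A : Finset ℕ} {X Y : List Letter} (h : Step A X Y) {l : Letter} (hl : l ∈ X) :
    l ∈ Y := by
  cases h with
  | rotate u v => simp only [List.mem_append] at hl ⊢; tauto
  | r1 u v c o s hcA hc => simp only [List.mem_append] at hl ⊢; tauto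
  | r2 u v w c d o s t hcA hdA hcd hc hd => simp only [List.mem_append] at hl ⊢; tauto

lemma Step.labels {A : Finset ℕ} {X Y : List Letter} (h : Step A X Y) {c : ℕ}
    (hc : c ∈ labels Y) (hcA : c ∈ A) : c ∈ labels X := by
  cases h with
  | rotate u v =>
    simp only [labels_append, Finset.mem_union] at hc ⊢; tauto
  | r1 u v c' o s hcA' hc' =>
    have : c ≠ c' := by rintro rfl; exact hcA' hcA
    simp only [labels_append, Finset.mem_union, labels_cons, Finset.mem_insert, labels_nil,
      Finset.notMem_empty, this] at hc ⊢; tauto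
  | r2 u v w c' d' o s t hcA' hdA' hcd hc' hd' =>
    have h1 : c ≠ c' := by rintro rfl; exact hcA' hcA
    have h2 : c ≠ d' := by rintro rfl; exact hdA' hcA
    simp only [labels_append, Finset.mem_union, labels_cons, Finset.mem_insert, labels_nil,
      Finset.notMem_empty, labels_dir, h1, h2] at hc ⊢; tauto

def Chain (A : Finset ℕ) : List Letter → List Letter → Prop := Relation.ReflTransGen (Step A)

lemma Chain.R {A : Finset ℕ} {X Y : List Letter} (h : Chain A X Y) : R X Y := by
  induction h with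
  | refl => exact R.refl _
  | tail _ h ih => exact ih.trans (R.of_move h.move)

lemma Chain.mono {A B : Finset ℕ} (hAB : A ⊆ B) {X Y : List Letter} (h : Chain B X Y) :
    Chain A X Y := by
  induction h with
  | refl => exact Relation.ReflTransGen.refl
  | tail _ h ih => exact Relation.ReflTransGen.tail ih (h.mono hAB)

lemma Chain.mem {A : Finset ℕ} {X Y : List Letter} (h : Chain A X Y) {l : Letter} (hl : l ∈ X) :
    l ∈ Y := by
  induction h with
  | refl => exact hl
  | tail _ h ih => exact h.mem ih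

lemma Chain.labels {A : Finset ℕ} {X Y : List Letter} (h : Chain A X Y) {c : ℕ}
    (hc : c ∈ labels Y) (hcA : c ∈ A) : c ∈ labels X := by
  induction h with
  | refl => exact hc
  | tail _ h ih => exact ih (h.labels hc hcA)

lemma Chain.labels_subset {A : Finset ℕ} {X Y : List Letter} (h : Chain A X Y) :
    Pool.Agent.Work.MP_69d501_gt.labels X ⊆
      Pool.Agent.Work.MP_69d501_gt.labels Y := by
  intro c hc
  rw [mem_labels] at hc ⊢
  obtain ⟨o, s, h'⟩ := hc
  exact ⟨o, s, h.mem h'⟩

lemma Step.strengthen {A : Finset ℕ} {X Y : List Letter} {B : Finset ℕ} (h : Step A X Y)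
    (hB : B ⊆ Pool.Agent.Work.MP_69d501_gt.labels X) : Step (A ∪ B) X Y := by
  cases h with
  | rotate u v => exact Step.rotate u v
  | r1 u v c o s hcA hc =>
    refine Step.r1 u v c o s ?_ hc
    rw [Finset.mem_union]; rintro (h | h)
    · exact hcA h
    · exact hc (hB h)
  | r2 u v w c d o s t hcA hdA hcd hc hd =>
    refine Step.r2 u v w c d o s t ?_ ?_ hcd hc hd
    · rw [Finset.mem_union]; rintro (h | h)
      · exact hcA h
      · exact hc (hB h)
    · rw [Finset.mem_union]; rintro (h | h)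
      · exact hdA h
      · exact hd (hB h)

lemma Chain.strengthen {A : Finset ℕ} {X Y : List Letter} {B : Finset ℕ} (h : Chain A X Y)
    (hB : B ⊆ Pool.Agent.Work.MP_69d501_gt.labels X) : Chain (A ∪ B) X Y := by
  induction h with
  | refl => exact Relation.ReflTransGen.refl
  | tail h1 h2 ih =>
    refine Relation.ReflTransGen.tail ih (h2.strengthen ?_)
    exact hB.trans (Chain.labels_subset h1)

/-! ### substitutions -/

structure Supp (A : Finset ℕ) (φ : Letter → List Letter) : Prop where
  off : ∀ l, l.1 ∉ A → φ l = [l]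
  on : ∀ l, l.1 ∈ A → ∀ l' ∈ φ l, l'.1 ∈ A

lemma Supp.mono {A B : Finset ℕ} (hAB : A ⊆ B) {φ : Letter → List Letter} (h : Supp A φ) :
    Supp B φ := by
  refine ⟨fun l hl => h.off l (fun h' => hl (hAB h')), ?_⟩
  intro l hl l' hl'
  by_cases hA : l.1 ∈ A
  · exact hAB (h.on l hA l' hl')
  · rw [h.off l hA, List.mem_singleton] at hl'
    subst hl'; exact hl

lemma Supp.labels {A : Finset ℕ} {φ : Letter → List Letter} (h : Supp A φ) {X : List Letter}
    {c : ℕ} (hc : c ∉ A) (hX : c ∉ labels X) : c ∉ labels (X.flatMap φ) := by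
  intro hc'
  rw [mem_labels] at hc'
  obtain ⟨o, s, h'⟩ := hc'
  rw [List.mem_flatMap] at h'
  obtain ⟨l, hl, hl'⟩ := h'
  by_cases hlA : l.1 ∈ A
  · exact hc (h.on l hlA _ hl')
  · rw [h.off l hlA, List.mem_singleton] at hl'
    subst hl'
    exact hX (mem_labels.2 ⟨_, _, hl⟩)

lemma Supp.flatMap_off {A : Finset ℕ} {φ : Letter → List Letter} (h : Supp A φ) {X : List Letter}
    (hX : ∀ l ∈ X, l.1 ∉ A) : X.flatMap φ = X := by
  induction X with
  | nil => rfl
  | cons l X ih =>
    rw [List.flatMap_cons, h.off l (hX l (by simp)), ih (fun l' hl' => hX l' (by simp [hl']))]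
    rfl

lemma Step.subst {A : Finset ℕ} {φ : Letter → List Letter} (hφ : Supp A φ) {X Y : List Letter}
    (h : Step A X Y) : Step A (X.flatMap φ) (Y.flatMap φ) := by
  cases h with
  | rotate u v => rw [List.flatMap_append, List.flatMap_append]; exact Step.rotate _ _
  | r1 u v c o s hcA hc =>
    have h1 : ([(c, o, s), (c, !o, s)] : List Letter).flatMap φ = [(c, o, s), (c, !o, s)] :=
      hφ.flatMap_off (by simp [hcA])
    have h2 := hφ.labels hcA hc
    rw [List.flatMap_append] at h2
    rw [List.flatMap_append, List.flatMap_append, List.flatMap_append, h1]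
    exact Step.r1 _ _ c o s hcA h2
  | r2 u v w c d o s t hcA hdA hcd hc hd =>
    have h1 : ([(c, o, s), (d, o, !s)] : List Letter).flatMap φ = [(c, o, s), (d, o, !s)] :=
      hφ.flatMap_off (by simp [hcA, hdA])
    have h2 : (dir t [(c, !o, s), (d, !o, !s)]).flatMap φ = dir t [(c, !o, s), (d, !o, !s)] :=
      hφ.flatMap_off (by cases t <;> simp [dir, hcA, hdA])
    have h3 := hφ.labels hcA hc
    have h4 := hφ.labels hdA hd
    simp only [List.flatMap_append] at h3 h4
    simp only [List.flatMap_append, h1, h2]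
    exact Step.r2 _ _ _ c d o s t hcA hdA hcd h3 h4

lemma Chain.subst {A : Finset ℕ} {φ : Letter → List Letter} (hφ : Supp A φ) {X Y : List Letter}
    (h : Chain A X Y) : Chain A (X.flatMap φ) (Y.flatMap φ) := by
  induction h with
  | refl => exact Relation.ReflTransGen.refl
  | tail _ h ih => exact Relation.ReflTransGen.tail ih (h.subst hφ)

lemma flip_flatMap {A : Finset ℕ} {φ : Letter → List Letter} (hφ : Supp A φ) {m : ℕ} (hm : m ∉ A)
    (W : List Letter) : flip {m} (W.flatMap φ) = (flip {m} W).flatMap φ := by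
  induction W with
  | nil => rfl
  | cons l W ih =>
    rw [List.flatMap_cons, flip_append, ih, flip_cons, List.flatMap_cons]
    congr 1
    by_cases hl : l.1 ∈ A
    · have h1 : flipLetter {m} l = l := by
        apply flipLetter_of_not_mem
        rw [Finset.mem_singleton]; rintro h; rw [h] at hl; exact hm hl
      rw [h1]
      apply flip_eq_self
      intro c hc
      rw [mem_labels] at hc
      obtain ⟨o, s, hc⟩ := hc
      have := hφ.on l hl _ hc
      rw [Finset.mem_singleton]; rintro rfl; exact hm this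
    · have h2 : (flipLetter {m} l).1 ∉ A := by rw [flipLetter_fst]; exact hl
      rw [hφ.off l hl, hφ.off _ h2]; rfl


/-! ### relabelling -/

abbrev rl (σ : Equiv.Perm ℕ) (w : List Letter) : List Letter :=
  w.map fun l => (σ l.1, l.2)

lemma rl_append (σ : Equiv.Perm ℕ) (u v : List Letter) : rl σ (u ++ v) = rl σ u ++ rl σ v := by
  unfold rl; simp

lemma rl_dir (σ : Equiv.Perm ℕ) (t : Bool) (w : List Letter) : rl σ (dir t w) = dir t (rl σ w) := by
  unfold rl dir; split <;> simp

lemma rl_arrange (σ : Equiv.Perm ℕ) (e : Bool) (M u B : List Letter) :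
    rl σ (arrange e M u B) = arrange e (rl σ M) (rl σ u) (rl σ B) := by
  unfold arrange; split <;> simp

lemma rl_eq_self {σ : Equiv.Perm ℕ} {w : List Letter} (h : ∀ c ∈ labels w, σ c = c) :
    rl σ w = w := by
  unfold rl
  conv_rhs => rw [← List.map_id w]
  apply List.map_congr_left
  intro l hl
  have := h l.1 (mem_labels.2 ⟨l.2.1, l.2.2, hl⟩)
  simp [this]

lemma not_mem_labels_rl {σ : Equiv.Perm ℕ} {w : List Letter} {c : ℕ} (h : c ∉ labels w) :
    σ c ∉ labels (rl σ w) := by
  rw [labels_map]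
  simpa using h

lemma R.rl (σ : Equiv.Perm ℕ) (w : List Letter) : R w (rl σ w) := R.of_move (Move.relabel σ w)

lemma Step.rl {A : Finset ℕ} (σ : Equiv.Perm ℕ) {X Y : List Letter} (h : Step A X Y) :
    Step (A.image σ) (MP_69d501_gt.rl σ X) (MP_69d501_gt.rl σ Y) := by
  have hA : ∀ {c : ℕ}, c ∉ A → σ c ∉ A.image σ := by
    intro c hc; simpa using hc
  cases h with
  | rotate u v => rw [rl_append, rl_append]; exact Step.rotate _ _
  | r1 u v c o s hcA hc =>
    have h1 := not_mem_labels_rl (σ := σ) hc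
    rw [rl_append] at h1
    rw [rl_append, rl_append, rl_append]
    exact Step.r1 _ _ (σ c) o s (hA hcA) h1
  | r2 u v w c d o s t hcA hdA hcd hc hd =>
    have h1 := not_mem_labels_rl (σ := σ) hc
    have h2 := not_mem_labels_rl (σ := σ) hd
    simp only [rl_append] at h1 h2
    simp only [rl_append, rl_dir]
    exact Step.r2 _ _ _ (σ c) (σ d) o s t (hA hcA) (hA hdA) (fun h => hcd (σ.injective h)) h1 h2

lemma Chain.rl {A : Finset ℕ} (σ : Equiv.Perm ℕ) {X Y : List Letter} (h : Chain A X Y) :
    Chain (A.image σ) (MP_69d501_gt.rl σ X) (MP_69d501_gt.rl σ Y) := by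
  induction h with
  | refl => exact Relation.ReflTransGen.refl
  | tail _ h ih => exact Relation.ReflTransGen.tail ih (h.rl σ)

lemma flip_rl (σ : Equiv.Perm ℕ) (C : Finset ℕ) (w : List Letter) :
    flip (C.image σ) (rl σ w) = rl σ (flip C w) := by
  unfold flip rl
  rw [List.map_map, List.map_map]
  apply List.map_congr_left
  intro l _
  simp only [Function.comp, flipLetter]
  by_cases h : l.1 ∈ C
  · simp [h]
  · simp [h]

/-! ### the carried statement -/

def P (E K : List Letter) : Prop :=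
  ∀ A : Finset ℕ, labels E ⊆ A → ∃ (W : List Letter) (m : ℕ),
    Chain A E W ∧ m ∈ labels W ∧ m ∉ A ∧ R (flip {m} W) K

lemma P.rl {E K : List Letter} (σ : Equiv.Perm ℕ) (h : P E K) : P (MP_69d501_gt.rl σ E) K := by
  intro A hA
  obtain ⟨W, m, h1, h2, h3, h4⟩ := h (A.image σ.symm) (by
    intro c hc
    rw [Finset.mem_image]
    refine ⟨σ c, hA ?_, by simp⟩
    rw [labels_map]
    exact Finset.mem_image_of_mem _ hc)
  have hA' : (A.image σ.symm).image σ = A := by
    rw [Finset.image_image]; simp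
  refine ⟨MP_69d501_gt.rl σ W, σ m, ?_, ?_, ?_, ?_⟩
  · have := h1.rl σ
    rwa [hA'] at this
  · rw [labels_map]; exact Finset.mem_image_of_mem _ h2
  · intro h
    apply h3
    rw [Finset.mem_image]
    exact ⟨σ m, h, by simp⟩
  · have : flip {σ m} (MP_69d501_gt.rl σ W) = MP_69d501_gt.rl σ (flip {m} W) := by
      rw [← flip_rl]; simp
    rw [this]
    exact (R.rl σ _).symm.trans h4

lemma P.rot {u v K : List Letter} (h : P (u ++ v) K) : P (v ++ u) K := by
  intro A hA
  obtain ⟨W, m, h1, h2, h3, h4⟩ := h A (by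
    simp only [labels_append] at hA ⊢; rwa [Finset.union_comm])
  exact ⟨W, m, Relation.ReflTransGen.head (Step.rotate v u) h1, h2, h3, h4⟩

lemma P.of_r1 {u v K : List Letter} {c : ℕ} {o s : Bool} (hc : c ∉ labels (u ++ v))
    (h : P (u ++ [(c, o, s), (c, !o, s)] ++ v) K) : P (u ++ v) K := by
  intro A hA
  obtain ⟨c', hc'⟩ := Infinite.exists_notMem_finset (A ∪ {c})
  rw [Finset.mem_union, not_or] at hc'
  have hcc : c' ≠ c := by simpa using hc'.2
  have hc'' : c' ∉ labels (u ++ v) := fun h => hc'.1 (hA h)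
  have h' := h.rl (Equiv.swap c c')
  have hu : ∀ w, labels w ⊆ labels (u ++ v) → MP_69d501_gt.rl (Equiv.swap c c') w = w := by
    intro w hw
    apply rl_eq_self
    intro x hx
    apply Equiv.swap_apply_of_ne_of_ne
    · rintro rfl; exact hc (hw hx)
    · rintro rfl; exact hc'' (hw hx)
  rw [rl_append, rl_append, hu u (by simp), hu v (by simp)] at h'
  have h2 : MP_69d501_gt.rl (Equiv.swap c c') [(c, o, s), (c, !o, s)]
      = [(c', o, s), (c', !o, s)] := by simp [MP_69d501_gt.rl]
  rw [h2] at h'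
  obtain ⟨W, m, h3, h4, h5, h6⟩ := h' (A ∪ labels (u ++ [(c', o, s), (c', !o, s)] ++ v))
    (Finset.subset_union_right)
  refine ⟨W, m, ?_, h4, fun h => h5 (Finset.mem_union_left _ h), h6⟩
  exact Relation.ReflTransGen.head (Step.r1 u v c' o s hc'.1 hc'')
    (h3.mono Finset.subset_union_left)

lemma P.of_r2 {u v w K : List Letter} {c d : ℕ} {o s t : Bool} (hcd : c ≠ d)
    (hc : c ∉ labels (u ++ v ++ w)) (hd : d ∉ labels (u ++ v ++ w))
    (h : P (u ++ [(c, o, s), (d, o, !s)] ++ v ++ dir t [(c, !o, s), (d, !o, !s)] ++ w) K) :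
    P (u ++ v ++ w) K := by
  intro A hA
  obtain ⟨c', hc'⟩ := Infinite.exists_notMem_finset (A ∪ {c, d})
  obtain ⟨d', hd'⟩ := Infinite.exists_notMem_finset (A ∪ {c, d, c'})
  simp only [Finset.mem_union, not_or, Finset.mem_insert, Finset.mem_singleton] at hc' hd'
  obtain ⟨hc'A, hc'c, hc'd⟩ := hc'
  obtain ⟨hd'A, hd'c, hd'd, hd'c'⟩ := hd'
  have hc'' : c' ∉ labels (u ++ v ++ w) := fun h => hc'A (hA h)
  have hd'' : d' ∉ labels (u ++ v ++ w) := fun h => hd'A (hA h)
  set σ : Equiv.Perm ℕ := (Equiv.swap c c').trans (Equiv.swap d d') with hσ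
  have h' := h.rl σ
  have hu : ∀ z, labels z ⊆ labels (u ++ v ++ w) → MP_69d501_gt.rl σ z = z := by
    intro z hz
    apply rl_eq_self
    intro x hx
    have h1 : x ≠ c := by rintro rfl; exact hc (hz hx)
    have h2 : x ≠ c' := by rintro rfl; exact hc'' (hz hx)
    have h3 : x ≠ d := by rintro rfl; exact hd (hz hx)
    have h4 : x ≠ d' := by rintro rfl; exact hd'' (hz hx)
    rw [hσ, Equiv.trans_apply, Equiv.swap_apply_of_ne_of_ne h1 h2,
      Equiv.swap_apply_of_ne_of_ne h3 h4]
  have hσc : σ c = c' := by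
    rw [hσ, Equiv.trans_apply, Equiv.swap_apply_left,
      Equiv.swap_apply_of_ne_of_ne hc'd (Ne.symm hd'c')]
  have hσd : σ d = d' := by
    rw [hσ, Equiv.trans_apply, Equiv.swap_apply_of_ne_of_ne (Ne.symm hcd) (Ne.symm hc'd),
      Equiv.swap_apply_left]
  have hU : labels u ⊆ labels (u ++ v ++ w) := by
    intro x hx; simp only [labels_append, Finset.mem_union]; tauto
  have hV : labels v ⊆ labels (u ++ v ++ w) := by
    intro x hx; simp only [labels_append, Finset.mem_union]; tauto
  have hW : labels w ⊆ labels (u ++ v ++ w) := by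
    intro x hx; simp only [labels_append, Finset.mem_union]; tauto
  simp only [rl_append, rl_dir] at h'
  rw [hu u hU, hu v hV, hu w hW] at h'
  have h2 : MP_69d501_gt.rl σ [(c, o, s), (d, o, !s)] = [(c', o, s), (d', o, !s)] := by
    simp [MP_69d501_gt.rl, hσc, hσd]
  have h3 : MP_69d501_gt.rl σ [(c, !o, s), (d, !o, !s)] = [(c', !o, s), (d', !o, !s)] := by
    simp [MP_69d501_gt.rl, hσc, hσd]
  rw [h2, h3] at h'
  obtain ⟨W, m, h3, h4, h5, h6⟩ := h' (A ∪ labels (u ++ [(c', o, s), (d', o, !s)] ++ v ++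
    dir t [(c', !o, s), (d', !o, !s)] ++ w)) (Finset.subset_union_right)
  refine ⟨W, m, ?_, h4, fun h => h5 (Finset.mem_union_left _ h), h6⟩
  exact Relation.ReflTransGen.head
    (Step.r2 u v w c' d' o s t hc'A hd'A (Ne.symm hd'c') hc'' hd'')
    (h3.mono Finset.subset_union_left)

lemma P.of_r2_gen {u v w K : List Letter} {c d : ℕ} {o s α β : Bool} (hcd : c ≠ d)
    (hc : c ∉ labels (u ++ v ++ w)) (hd : d ∉ labels (u ++ v ++ w))
    (h : P (u ++ dir α [(c, o, s), (d, o, !s)] ++ v ++ dir β [(c, !o, s), (d, !o, !s)] ++ w) K) :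
    P (u ++ v ++ w) K := by
  cases α with
  | true => exact P.of_r2 hcd hc hd h
  | false =>
    refine P.of_r2 (c := d) (d := c) (o := o) (s := !s) (t := !β) (Ne.symm hcd) hd hc ?_
    have h2 : dir (!β) [(d, !o, !s), (c, !o, !!s)] = dir β [(c, !o, s), (d, !o, !s)] := by
      cases β <;> simp [dir]
    have h3 : ([(d, o, !s), (c, o, !!s)] : List Letter) = dir false [(c, o, s), (d, o, !s)] := by
      simp [dir]
    rw [h2, h3]
    exact h

lemma P.subst {E K : List Letter} {A₀ : Finset ℕ} {φ : Letter → List Letter} (hφ : Supp A₀ φ)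
    (hE : labels E ⊆ A₀) (hEG : IsGauss E)
    (hR : ∀ X, IsGauss X → (∀ l ∈ E, l ∈ X) → (∀ c ∈ labels X, c ∈ A₀ → c ∈ labels E) →
      R X (X.flatMap φ)) (h : P E K) : P (E.flatMap φ) K := by
  intro A hA
  obtain ⟨W, m, h1, h2, h3, h4⟩ := h (A ∪ A₀) (hE.trans Finset.subset_union_right)
  rw [Finset.mem_union, not_or] at h3
  refine ⟨W.flatMap φ, m, ?_, ?_, h3.1, ?_⟩
  · exact (h1.subst (hφ.mono Finset.subset_union_right)).mono Finset.subset_union_left
  · rw [mem_labels] at h2 ⊢
    obtain ⟨o, s, h2⟩ := h2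
    refine ⟨o, s, ?_⟩
    rw [List.mem_flatMap]
    exact ⟨_, h2, by rw [hφ.off _ h3.2]; simp⟩
  · rw [flip_flatMap hφ h3.2]
    refine (hR _ ?_ ?_ ?_).symm.trans h4
    · exact isGauss_flip ((R.isGauss h1.R).1 hEG)
    · intro l hl
      rw [mem_flip, flipLetter_of_not_mem]
      · exact h1.mem hl
      · rw [Finset.mem_singleton]
        rintro rfl
        exact h3.2 (hE (mem_labels.2 ⟨l.2.1, l.2.2, hl⟩))
    · intro c hc hcA
      rw [labels_flip] at hc
      exact h1.labels hc (Finset.mem_union_right _ hcA)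


/-! ### insertion of a block in one gap -/

lemma flatMap_id_of {φ : Letter → List Letter} {X : List Letter} (h : ∀ l ∈ X, φ l = [l]) :
    X.flatMap φ = X := by
  induction X with
  | nil => rfl
  | cons l X ih =>
    rw [List.flatMap_cons, h l (by simp), ih (fun l' hl' => h l' (by simp [hl']))]
    rfl

def sub (a : Letter) (L : List Letter) (l : Letter) : List Letter := if l = a then L else [l]

lemma sub_self (a : Letter) (L : List Letter) : sub a L a = L := by simp [sub]

lemma sub_ne {a l : Letter} (L : List Letter) (h : l ≠ a) : sub a L l = [l] := by simp [sub, h]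

lemma sub_flatMap {a : Letter} {L u v : List Letter} (hu : a ∉ u) (hv : a ∉ v) :
    (u ++ a :: v).flatMap (sub a L) = u ++ L ++ v := by
  have h1 : u.flatMap (sub a L) = u :=
    flatMap_id_of (fun l hl => sub_ne L (by rintro rfl; exact hu hl))
  have h2 : v.flatMap (sub a L) = v :=
    flatMap_id_of (fun l hl => sub_ne L (by rintro rfl; exact hv hl))
  rw [List.flatMap_append, List.flatMap_cons, sub_self, h1, h2, List.append_assoc]

lemma sub_supp {A : Finset ℕ} {a : Letter} {L : List Letter} (ha : a.1 ∈ A)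
    (hL : labels L ⊆ A) : Supp A (sub a L) := by
  refine ⟨?_, ?_⟩
  · intro l hl
    exact sub_ne L (fun h => hl (h ▸ ha))
  · intro l hl l' hl'
    by_cases h : l = a
    · subst h
      rw [sub_self] at hl'
      exact hL (mem_labels.2 ⟨l'.2.1, l'.2.2, hl'⟩)
    · rw [sub_ne L h, List.mem_singleton] at hl'
      subst hl'; exact hl

lemma split_of_mem {a : Letter} {X : List Letter} (hX : X.Nodup) (ha : a ∈ X) :
    ∃ u v, X = u ++ a :: v ∧ a ∉ u ∧ a ∉ v := by
  obtain ⟨u, v, rfl⟩ := List.append_of_mem ha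
  refine ⟨u, v, rfl, ?_, ?_⟩
  · intro h
    have := List.nodup_append.1 hX
    exact this.2.2 a h a (by simp) rfl
  · have := (List.nodup_append.1 hX).2.1
    exact (List.nodup_cons.1 this).1

/-- `L` may be inserted in any gap by Reidemeister moves. -/
def Free (L : List Letter) : Prop :=
  ∀ u v, (∀ c ∈ labels L, c ∉ labels (u ++ v)) → R (u ++ v) (u ++ L ++ v)

lemma P.ins_cons {a : Letter} {t L K : List Letter} (hG : IsGauss (a :: t)) (hL : Free L)
    (hfr : ∀ c ∈ labels L, c ∉ labels (a :: t)) (h : P (a :: t) K) : P (L ++ a :: t) K := by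
  have hat : a ∉ t := (List.nodup_cons.1 hG.1).1
  have key := P.subst (A₀ := labels (a :: t) ∪ labels L) (φ := sub a (L ++ [a]))
    (sub_supp (Finset.mem_union_left _ (by simp)) (by
      intro c hc
      simp only [labels_append, labels_cons, labels_nil, Finset.mem_union, Finset.mem_insert] at hc ⊢
      simp at hc
      tauto)) Finset.subset_union_left hG ?_ h
  · have h1 : (a :: t).flatMap (sub a (L ++ [a])) = [] ++ (L ++ [a]) ++ t :=
      sub_flatMap (u := []) (by simp) hat
    rw [h1] at key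
    simpa using key
  · intro X hX hmem hlab
    obtain ⟨u, v, rfl, hu, hv⟩ := split_of_mem hX.1 (hmem a (by simp))
    rw [sub_flatMap hu hv]
    have := hL u (a :: v) (by
      intro c hc hc'
      exact hfr c hc (hlab c hc' (Finset.mem_union_right _ hc)))
    simpa using this

lemma Step.nil_cases {A : Finset ℕ} {X Y : List Letter} (h : Step A X Y) (hX : X = []) :
    Y = [] ∨ (Y ≠ [] ∧ Y.Nodup ∧
      ∀ L : List Letter, (∀ c ∈ MP_69d501_gt.labels L, c ∈ A) → Step A L (L ++ Y)) := by
  cases h with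
  | rotate u v =>
    left
    rw [List.append_eq_nil_iff] at hX
    simp [hX.1, hX.2]
  | r1 u v c o s hcA hc =>
    right
    rw [List.append_eq_nil_iff] at hX
    obtain ⟨rfl, rfl⟩ := hX
    refine ⟨by simp, by simp, ?_⟩
    intro L hL
    have := Step.r1 L [] c o s hcA (by
      simp only [List.append_nil]
      exact fun h => hcA (hL _ h))
    simpa using this
  | r2 u v w c d o s t hcA hdA hcd hc hd =>
    right
    simp only [List.append_eq_nil_iff] at hX
    obtain ⟨⟨rfl, rfl⟩, rfl⟩ := hX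
    refine ⟨by simp, ?_, ?_⟩
    · cases t <;> simp [dir, hcd, Ne.symm hcd]
    intro L hL
    have := Step.r2 L [] [] c d o s t hcA hdA hcd (by
      simp only [List.append_nil]
      exact fun h => hcA (hL _ h)) (by
      simp only [List.append_nil]
      exact fun h => hdA (hL _ h))
    simpa using this

lemma Chain.nil_cases {A : Finset ℕ} {X W : List Letter} (h : Chain A X W) (hX : X = [])
    (hW : W ≠ []) : ∃ Y, Y ≠ [] ∧ Y.Nodup ∧ Chain A Y W ∧
      ∀ L : List Letter, (∀ c ∈ MP_69d501_gt.labels L, c ∈ A) → Step A L (L ++ Y) := by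
  induction h using Relation.ReflTransGen.head_induction_on with
  | refl => exact absurd hX hW
  | head h1 h2 ih =>
    rcases h1.nil_cases hX with h3 | ⟨h3, h4, h5⟩
    · exact ih h3
    · exact ⟨_, h3, h4, h2, h5⟩

lemma P.ins_nil {L K : List Letter} (hL : Free L) (h : P [] K) : P L K := by
  intro A hA
  obtain ⟨W, m, h1, h2, h3, h4⟩ := h A (by simp)
  have hW : W ≠ [] := by
    rintro rfl; simp at h2
  obtain ⟨Y, hY, hYn, hY1, hY2⟩ := h1.nil_cases rfl hW
  obtain ⟨a, Y', rfl⟩ := List.exists_cons_of_ne_nil hY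
  have haY' : a ∉ Y' := (List.nodup_cons.1 hYn).1
  have hS : Supp (A ∪ labels (a :: Y')) (sub a (L ++ [a])) :=
    sub_supp (Finset.mem_union_right _ (by simp)) (by
      intro c hc
      simp only [labels_append, Finset.mem_union] at hc ⊢
      rcases hc with hc | hc
      · exact Or.inl (hA hc)
      · simp at hc; subst hc; right; simp)
  have h5 := (hY1.strengthen (Finset.Subset.refl _)).subst hS
  have h6 : (a :: Y').flatMap (sub a (L ++ [a])) = L ++ a :: Y' := by
    have := sub_flatMap (L := L ++ [a]) (u := []) (by simp) haY'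
    simpa using this
  rw [h6] at h5
  have haW : a ∈ W := hY1.mem (by simp)
  have hWG : IsGauss W := (R.isGauss h1.R).1 isGauss_nil
  obtain ⟨u, v, rfl, hu, hv⟩ := split_of_mem hWG.1 haW
  rw [sub_flatMap hu hv] at h5
  refine ⟨_, m, Relation.ReflTransGen.head (hY2 L hA) (h5.mono Finset.subset_union_left), ?_, h3,
    ?_⟩
  · simp only [labels_append, labels_cons, labels_nil, Finset.mem_union, Finset.mem_insert] at h2 ⊢
    tauto
  · have h7 : flip {m} L = L := flip_eq_self (by
      intro c hc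
      rw [Finset.mem_singleton]; rintro rfl; exact h3 (hA hc))
    have h8 : flip {m} (u ++ (L ++ [a]) ++ v)
        = flip {m} u ++ L ++ flip {m} (a :: v) := by
      simp [h7]
    rw [h8]
    refine (hL _ _ ?_).symm.trans ?_
    · intro c hc hc'
      have h9 : c ∈ labels (u ++ a :: v) := by simpa [flipLetter_fst] using hc'
      have := h1.labels h9 (hA hc)
      simp at this
    · simpa using h4

lemma P.ins {u v L K : List Letter} (hG : IsGauss (u ++ v)) (hL : Free L)
    (hfr : ∀ c ∈ labels L, c ∉ labels (u ++ v)) (h : P (u ++ v) K) : P (u ++ L ++ v) K := by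
  have h1 : P (L ++ (v ++ u)) K := by
    have h2 : P (v ++ u) K := h.rot
    have hG2 : IsGauss (v ++ u) := (isGauss_perm List.perm_append_comm).1 hG
    have hfr2 : ∀ c ∈ labels L, c ∉ labels (v ++ u) := by
      intro c hc; have := hfr c hc
      simp only [labels_append, Finset.mem_union] at this ⊢; tauto
    generalize v ++ u = E at h2 hG2 hfr2
    cases E with
    | nil => simpa using P.ins_nil hL h2
    | cons a t => exact P.ins_cons hG2 hL hfr2 h2
  rw [← List.append_assoc] at h1
  have := h1.rot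
  rwa [← List.append_assoc] at this

lemma free_r1 (c : ℕ) (o s : Bool) : Free [(c, o, s), (c, !o, s)] := by
  intro u v h
  exact R.of_move (Move.r1 u v c o s (h c (by simp)))

lemma free_r2 (c d : ℕ) (o s α β : Bool) (hcd : c ≠ d) :
    Free (dir α [(c, o, s), (d, o, !s)] ++ dir β [(c, !o, s), (d, !o, !s)]) := by
  intro u v h
  have := r2_gen u [] v c d o s α β hcd (by simpa using h c (by simp))
    (by simpa using h d (by simp))
  simpa using this


/-! ### insertion in two gaps -/

lemma rot_split2 {X : List Letter} {a b : Letter} (hX : X.Nodup) (ha : a ∈ X) (hb : b ∈ X)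
    (hab : a ≠ b) : ∃ u v T₁ T₂, X = u ++ v ∧ v ++ u = a :: (T₁ ++ b :: T₂) ∧
      a ∉ T₁ ∧ a ∉ T₂ ∧ b ∉ T₁ ∧ b ∉ T₂ := by
  obtain ⟨u, v, rfl, hu, hv⟩ := split_of_mem hX ha
  have hT : (v ++ u).Nodup := by
    have h1 : (u ++ a :: v).Perm (a :: (v ++ u)) := by
      refine List.perm_append_comm.trans ?_
      rw [List.cons_append]
    exact (List.nodup_cons.1 (h1.nodup_iff.1 hX)).2
  have hbT : b ∈ v ++ u := by
    simp only [List.mem_append, List.mem_cons] at hb ⊢
    rcases hb with h | h | h
    · exact Or.inr h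
    · exact absurd h.symm hab
    · exact Or.inl h
  obtain ⟨T₁, T₂, h, h1, h2⟩ := split_of_mem hT hbT
  have haT : a ∉ v ++ u := by simp [hu, hv]
  rw [h] at haT
  simp only [List.mem_append, List.mem_cons, not_or] at haT
  refine ⟨u, a :: v, T₁, T₂, rfl, ?_, haT.1, haT.2.2, h1, h2⟩
  rw [List.cons_append, h]

lemma rot_split3 {X : List Letter} {a b c : Letter} (hX : X.Nodup) (ha : a ∈ X) (hb : b ∈ X)
    (hc : c ∈ X) (hab : a ≠ b) (hac : a ≠ c) (hbc : b ≠ c) :
    ∃ u v T₁ T₂ T₃, X = u ++ v ∧
      (v ++ u = a :: (T₁ ++ b :: (T₂ ++ c :: T₃)) ∨ v ++ u = a :: (T₁ ++ c :: (T₂ ++ b :: T₃))) ∧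
      (a ∉ T₁ ∧ a ∉ T₂ ∧ a ∉ T₃) ∧ (b ∉ T₁ ∧ b ∉ T₂ ∧ b ∉ T₃) ∧ (c ∉ T₁ ∧ c ∉ T₂ ∧ c ∉ T₃) := by
  obtain ⟨u, v, T₁, T₂, rfl, h, h1, h2, h3, h4⟩ := rot_split2 hX ha hb hab
  have hvu : (v ++ u).Nodup := (List.perm_append_comm.nodup_iff).1 hX
  have hcT : c ∈ T₁ ∨ c ∈ T₂ := by
    have : c ∈ v ++ u := by
      simp only [List.mem_append] at hc ⊢; tauto
    rw [h] at this
    simp only [List.mem_append, List.mem_cons] at this
    rcases this with h | h | h | h
    · exact absurd h.symm hac
    · exact Or.inl h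
    · exact absurd h.symm hbc
    · exact Or.inr h
  rw [h] at hvu
  rw [List.nodup_cons, List.nodup_append, List.nodup_cons] at hvu
  obtain ⟨-, hT1, ⟨hbT2, hT2⟩, hd⟩ := hvu
  rcases hcT with hcT | hcT
  · obtain ⟨S₁, S₂, rfl, h5, h6⟩ := split_of_mem hT1 hcT
    simp only [List.mem_append, List.mem_cons, not_or] at h1 h3
    have hcT2 : c ∉ T₂ := fun h' => hd c hcT c (by simp [h']) rfl
    refine ⟨u, v, S₁, S₂, T₂, rfl, Or.inr ?_, ⟨h1.1, h1.2.2, h2⟩, ⟨h3.1, h3.2.2, h4⟩,
      ⟨h5, h6, hcT2⟩⟩
    rw [h]; simp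
  · obtain ⟨S₁, S₂, rfl, h5, h6⟩ := split_of_mem hT2 hcT
    simp only [List.mem_append, List.mem_cons, not_or] at h2 h4
    have hcT1 : c ∉ T₁ := fun h' => hd c h' c (by simp) rfl
    exact ⟨u, v, T₁, S₁, S₂, rfl, Or.inl h, ⟨h1, h2.1, h2.2.2⟩, ⟨h3, h4.1, h4.2.2⟩,
      ⟨hcT1, h5, h6⟩⟩

lemma R_flatMap_rot {φ : Letter → List Letter} {u v : List Letter}
    (h : R (v ++ u) ((v ++ u).flatMap φ)) : R (u ++ v) ((u ++ v).flatMap φ) := by
  rw [List.flatMap_append] at h ⊢
  exact ((R.rot u v).trans h).trans (R.rot _ _)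

def sub3 (a : Letter) (La : List Letter) (b : Letter) (Lb : List Letter) (c : Letter)
    (Lc : List Letter) (l : Letter) : List Letter :=
  if l = a then La else if l = b then Lb else if l = c then Lc else [l]

lemma sub3_supp {A : Finset ℕ} {a b c : Letter} {La Lb Lc : List Letter} (ha : a.1 ∈ A)
    (hb : b.1 ∈ A) (hc : c.1 ∈ A) (hLa : labels La ⊆ A) (hLb : labels Lb ⊆ A)
    (hLc : labels Lc ⊆ A) : Supp A (sub3 a La b Lb c Lc) := by
  refine ⟨?_, ?_⟩
  · intro l hl
    have h1 : l ≠ a := by rintro rfl; exact hl ha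
    have h2 : l ≠ b := by rintro rfl; exact hl hb
    have h3 : l ≠ c := by rintro rfl; exact hl hc
    simp [sub3, h1, h2, h3]
  · intro l hl l' hl'
    unfold sub3 at hl'
    split at hl'
    · exact hLa (mem_labels.2 ⟨l'.2.1, l'.2.2, hl'⟩)
    · split at hl'
      · exact hLb (mem_labels.2 ⟨l'.2.1, l'.2.2, hl'⟩)
      · split at hl'
        · exact hLc (mem_labels.2 ⟨l'.2.1, l'.2.2, hl'⟩)
        · rw [List.mem_singleton] at hl'
          subst hl'; exact hl

lemma sub3_flatMap_off {a b c : Letter} {La Lb Lc T : List Letter} (h1 : a ∉ T) (h2 : b ∉ T)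
    (h3 : c ∉ T) : T.flatMap (sub3 a La b Lb c Lc) = T := by
  apply flatMap_id_of
  intro l hl
  have h1 : l ≠ a := by rintro rfl; exact h1 hl
  have h2 : l ≠ b := by rintro rfl; exact h2 hl
  have h3 : l ≠ c := by rintro rfl; exact h3 hl
  simp [sub3, h1, h2, h3]

lemma P.r2_two {a b : Letter} {v₁ w₁ K : List Letter} {c d : ℕ} {o s α β : Bool}
    (hG : IsGauss (a :: (v₁ ++ b :: w₁))) (hcd : c ≠ d)
    (hc : c ∉ labels (a :: (v₁ ++ b :: w₁))) (hd : d ∉ labels (a :: (v₁ ++ b :: w₁)))
    (h : P (a :: (v₁ ++ b :: w₁)) K) :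
    P (dir α [(c, o, s), (d, o, !s)] ++ a :: (v₁ ++ dir β [(c, !o, s), (d, !o, !s)] ++ b :: w₁))
      K := by
  set La := dir α [(c, o, s), (d, o, !s)] ++ [a] with hLa
  set Lb := dir β [(c, !o, s), (d, !o, !s)] ++ [b] with hLb
  have hnd := hG.1
  rw [List.nodup_cons, List.nodup_append, List.nodup_cons] at hnd
  obtain ⟨hav, hv1, ⟨hbw, hw1⟩, hdis⟩ := hnd
  simp only [List.mem_append, List.mem_cons, not_or] at hav
  have hbv : b ∉ v₁ := fun h' => hdis b h' b (by simp) rfl
  have hab : a ≠ b := hav.2.1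
  have hsub : ∀ T₁ T₂ : List Letter, a ∉ T₁ → a ∉ T₂ → b ∉ T₁ → b ∉ T₂ →
      (a :: (T₁ ++ b :: T₂)).flatMap (sub3 a La b Lb b Lb) = La ++ T₁ ++ Lb ++ T₂ := by
    intro T₁ T₂ h1 h2 h3 h4
    rw [List.flatMap_cons, List.flatMap_append, List.flatMap_cons, sub3_flatMap_off h1 h3 h3,
      sub3_flatMap_off h2 h4 h4]
    have e1 : sub3 a La b Lb b Lb a = La := by simp [sub3]
    have e2 : sub3 a La b Lb b Lb b = Lb := by simp [sub3, Ne.symm hab]
    rw [e1, e2]; simp
  have key := P.subst (A₀ := labels (a :: (v₁ ++ b :: w₁)) ∪ {c, d}) (φ := sub3 a La b Lb b Lb)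
    (sub3_supp (by simp) (by simp) (by simp)
      (by
        rw [hLa]; intro x hx
        simp only [labels_append, labels_dir, labels_cons, labels_nil, Finset.mem_union,
          Finset.mem_insert, Finset.notMem_empty, or_false, Finset.mem_singleton] at hx ⊢
        tauto)
      (by
        rw [hLb]; intro x hx
        simp only [labels_append, labels_dir, labels_cons, labels_nil, Finset.mem_union,
          Finset.mem_insert, Finset.notMem_empty, or_false, Finset.mem_singleton] at hx ⊢
        tauto)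
      (by
        rw [hLb]; intro x hx
        simp only [labels_append, labels_dir, labels_cons, labels_nil, Finset.mem_union,
          Finset.mem_insert, Finset.notMem_empty, or_false, Finset.mem_singleton] at hx ⊢
        tauto)) Finset.subset_union_left hG ?_ h
  · rw [hsub _ _ hav.1 hav.2.2 hbv hbw, hLa, hLb] at key
    simpa using key
  · intro X hX hmem hlab
    obtain ⟨u, v, T₁, T₂, rfl, hvu, h1, h2, h3, h4⟩ :=
      rot_split2 hX.1 (hmem a (by simp)) (hmem b (by simp)) hab
    apply R_flatMap_rot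
    have hlab' : labels (u ++ v) = labels (v ++ u) := labels_perm List.perm_append_comm
    have hcX : c ∉ labels (v ++ u) := fun h' =>
      hc (hlab c (hlab' ▸ h') (Finset.mem_union_right _ (by simp)))
    have hdX : d ∉ labels (v ++ u) := fun h' =>
      hd (hlab d (hlab' ▸ h') (Finset.mem_union_right _ (by simp)))
    rw [hvu] at hcX hdX ⊢
    rw [hsub _ _ h1 h2 h3 h4, hLa, hLb]
    have := r2_gen [] (a :: T₁) (b :: T₂) c d o s α β hcd (by simpa using hcX) (by simpa using hdX)
    simpa using this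

lemma P.r2_create {u v w K : List Letter} {c d : ℕ} {o s t : Bool} (hG : IsGauss (u ++ v ++ w))
    (hcd : c ≠ d) (hc : c ∉ labels (u ++ v ++ w)) (hd : d ∉ labels (u ++ v ++ w))
    (h : P (u ++ v ++ w) K) :
    P (u ++ [(c, o, s), (d, o, !s)] ++ v ++ dir t [(c, !o, s), (d, !o, !s)] ++ w) K := by
  -- rotate `u` to the end
  have h1 : P (v ++ (w ++ u)) K := by
    rw [List.append_assoc] at h
    have := h.rot
    rwa [List.append_assoc] at this
  have hp : (u ++ v ++ w).Perm (v ++ (w ++ u)) := by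
    rw [List.append_assoc]
    refine List.perm_append_comm.trans ?_
    rw [List.append_assoc]
  have hG1 : IsGauss (v ++ (w ++ u)) := (isGauss_perm hp).1 hG
  have hc1 : c ∉ labels (v ++ (w ++ u)) := by rwa [← labels_perm hp]
  have hd1 : d ∉ labels (v ++ (w ++ u)) := by rwa [← labels_perm hp]
  suffices hs : P ([(c, o, s), (d, o, !s)] ++ v ++ dir t [(c, !o, s), (d, !o, !s)] ++ (w ++ u)) K by
    have h2 : [(c, o, s), (d, o, !s)] ++ v ++ dir t [(c, !o, s), (d, !o, !s)] ++ (w ++ u)
        = ([(c, o, s), (d, o, !s)] ++ v ++ dir t [(c, !o, s), (d, !o, !s)] ++ w) ++ u := by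
      simp
    rw [h2] at hs
    have := hs.rot
    simpa using this
  generalize w ++ u = w' at h1 hG1 hc1 hd1
  cases v with
  | nil =>
    have h3 := P.ins (u := []) (v := w') hG1 (free_r2 c d o s true t hcd) (by
      intro x hx
      simp only [labels_append, labels_dir, labels_cons, labels_nil, Finset.mem_union,
        Finset.mem_insert, Finset.notMem_empty, or_false] at hx
      have hx' : x = c ∨ x = d := by tauto
      rcases hx' with rfl | rfl
      · exact hc1
      · exact hd1) h1
    simpa [dir] using h3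
  | cons a v₁ =>
    cases w' with
    | nil =>
      have h3 := P.ins (u := a :: v₁) (v := []) hG1 (free_r2 c d (!o) s t true hcd) (by
        intro x hx
        simp only [labels_append, labels_dir, labels_cons, labels_nil, Finset.mem_union,
          Finset.mem_insert, Finset.notMem_empty, or_false] at hx
        have hx' : x = c ∨ x = d := by tauto
        rcases hx' with rfl | rfl
        · exact hc1
        · exact hd1) h1
      have h4 : (a :: v₁) ++ (dir t [(c, !o, s), (d, !o, !s)] ++
          dir true [(c, !!o, s), (d, !!o, !s)]) ++ []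
          = ((a :: v₁) ++ dir t [(c, !o, s), (d, !o, !s)]) ++ [(c, o, s), (d, o, !s)] := by
        simp [dir]
      rw [h4] at h3
      have := h3.rot
      simpa using this
    | cons b w₁ =>
      have h3 := P.r2_two (α := true) (β := t) (o := o) (s := s) hG1 hcd hc1 hd1 h1
      simpa [dir] using h3


/-! ### the third move -/

lemma labels_arrange (e : Bool) (M u B : List Letter) :
    labels (arrange e M u B) = labels M ∪ labels u ∪ labels B := by
  rw [labels_perm (perm_arrange e M u B)]; simp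

lemma r3_core (T₁ T₂ T₃ : List Letter) (a b c e p q r : Bool) (y z x₁ x₂ y₁ y₂ : ℕ)
    (h₁ : xor p q = xor b c) (h₂ : xor p r = xor a c)
    (hd1 : x₁ ≠ x₂) (hd2 : x₁ ≠ y₁) (hd3 : x₁ ≠ y₂) (hd4 : x₂ ≠ y₁) (hd5 : x₂ ≠ y₂)
    (hd6 : y₁ ≠ y₂) 
    (hx1 : x₁ ∉ labels T₁ ∪ labels T₂ ∪ labels T₃ ∪ {y, z})
    (hx2 : x₂ ∉ labels T₁ ∪ labels T₂ ∪ labels T₃ ∪ {y, z})
    (hy1 : y₁ ∉ labels T₁ ∪ labels T₂ ∪ labels T₃ ∪ {y, z})
    (hy2 : y₂ ∉ labels T₁ ∪ labels T₂ ∪ labels T₃ ∪ {y, z}) :
    R ([(y, true, q)] ++ T₁ ++ arrange e [(z, true, r)] T₂ [(z, false, r)] ++ T₃)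
      (dir a [(x₂, true, !p), (y₁, true, q), (x₁, true, p), (y₂, true, !q), (y, true, q)] ++ T₁
        ++ arrange e (dir b [(x₂, false, !p), (z, true, r), (x₁, false, p)]) T₂
            (dir c [(y₂, false, !q), (z, false, r), (y₁, false, q)]) ++ T₃) := by
  simp only [Finset.mem_union, Finset.mem_insert, Finset.mem_singleton, not_or] at hx1 hx2 hy1 hy2
  obtain ⟨⟨⟨hx1a, hx1b⟩, hx1c⟩, hx1d, hx1e⟩ := hx1
  obtain ⟨⟨⟨hx2a, hx2b⟩, hx2c⟩, hx2d, hx2e⟩ := hx2
  obtain ⟨⟨⟨hy1a, hy1b⟩, hy1c⟩, hy1d, hy1e⟩ := hy1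
  obtain ⟨⟨⟨hy2a, hy2b⟩, hy2c⟩, hy2d, hy2e⟩ := hy2
  have s1 : R ([(y, true, q)] ++ T₁ ++ arrange e [(z, true, r)] T₂ [(z, false, r)] ++ T₃)
      (dir a [(x₂, true, !p), (x₁, true, p), (y, true, q)] ++ T₁
        ++ arrange e (dir b [(x₂, false, !p), (x₁, false, p), (z, true, r)]) T₂
            [(z, false, r)] ++ T₃) := by
    have := r2_gen (if a then [] else [(y, true, q)])
      ((if a then [(y, true, q)] else []) ++ T₁ ++ (if e then [] else [(z, false, r)] ++ T₂) ++
        (if b then [] else [(z, true, r)]))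
      ((if b then [(z, true, r)] else []) ++ (if e then T₂ ++ [(z, false, r)] else []) ++ T₃)
      x₂ x₁ true (!p) a b (Ne.symm hd1)
      (by cases a <;> cases b <;> cases e <;>
            simp [hx2a, hx2b, hx2c, hx2d, hx2e])
      (by cases a <;> cases b <;> cases e <;>
            simp [hx1a, hx1b, hx1c, hx1d, hx1e])
    cases a <;> cases b <;> cases e <;> simpa [dir, arrange] using this
  have s2 : R (dir a [(x₂, true, !p), (x₁, true, p), (y, true, q)] ++ T₁
        ++ arrange e (dir b [(x₂, false, !p), (x₁, false, p), (z, true, r)]) T₂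
            [(z, false, r)] ++ T₃)
      (dir a [(x₂, true, !p), (x₁, true, p), (y₁, true, q), (y₂, true, !q), (y, true, q)] ++ T₁
        ++ arrange e (dir b [(x₂, false, !p), (x₁, false, p), (z, true, r)]) T₂
            (dir c [(y₂, false, !q), (y₁, false, q), (z, false, r)]) ++ T₃) := by
    have := r2_gen (if a then [(x₂, true, !p), (x₁, true, p)] else [(y, true, q)])
      ((if a then [(y, true, q)] else [(x₁, true, p), (x₂, true, !p)]) ++ T₁ ++
        (if e then dir b [(x₂, false, !p), (x₁, false, p), (z, true, r)] ++ T₂ else []) ++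
        (if c then [] else [(z, false, r)]))
      ((if c then [(z, false, r)] else []) ++
        (if e then [] else T₂ ++ dir b [(x₂, false, !p), (x₁, false, p), (z, true, r)]) ++ T₃)
      y₁ y₂ true q a (!c) hd6
      (by cases a <;> cases c <;> cases e <;>
            simp [hy1a, hy1b, hy1c, hy1d, hy1e, Ne.symm hd2, Ne.symm hd4])
      (by cases a <;> cases c <;> cases e <;>
            simp [hy2a, hy2b, hy2c, hy2d, hy2e, Ne.symm hd3, Ne.symm hd5])
    cases a <;> cases b <;> cases c <;> cases e <;> simpa [dir, arrange] using this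
  have s3 : R (dir a [(x₂, true, !p), (x₁, true, p), (y₁, true, q), (y₂, true, !q), (y, true, q)]
        ++ T₁
        ++ arrange e (dir b [(x₂, false, !p), (x₁, false, p), (z, true, r)]) T₂
            (dir c [(y₂, false, !q), (y₁, false, q), (z, false, r)]) ++ T₃)
      (dir a [(x₂, true, !p), (y₁, true, q), (x₁, true, p), (y₂, true, !q), (y, true, q)] ++ T₁
        ++ arrange e (dir b [(x₂, false, !p), (z, true, r), (x₁, false, p)]) T₂
            (dir c [(y₂, false, !q), (z, false, r), (y₁, false, q)]) ++ T₃) := by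
    have := Move.r3 (if a then [(x₂, true, !p)] else [(y, true, q), (y₂, true, !q)])
      ((if a then [(y₂, true, !q), (y, true, q)] else [(x₂, true, !p)]) ++ T₁ ++
        (if e then (if b then [(x₂, false, !p)] else []) else
          (if c then [(y₂, false, !q)] else [])))
      ((if e then (if b then [] else [(x₂, false, !p)]) else
          (if c then [] else [(y₂, false, !q)])) ++ T₂ ++
        (if e then (if c then [(y₂, false, !q)] else []) else
          (if b then [(x₂, false, !p)] else [])))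
      ((if e then (if c then [] else [(y₂, false, !q)]) else
          (if b then [] else [(x₂, false, !p)])) ++ T₃)
      x₁ y₁ z p q r a b c e h₁ h₂
    have := R.of_move this
    cases a <;> cases b <;> cases c <;> cases e <;> simpa [dir, arrange] using this
  exact (s1.trans s2).trans s3


lemma not_mem_of_gauss {w : List Letter} {c : ℕ} {o s : Bool}
    (h : IsGauss ((c, o, s) :: (c, !o, s) :: w)) : c ∉ labels w := by
  intro hc
  rw [mem_labels] at hc
  obtain ⟨o', s', hc⟩ := hc
  obtain ⟨hn, h2⟩ := h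
  rw [List.nodup_cons, List.nodup_cons] at hn
  obtain ⟨h3, h4, h5⟩ := hn
  have h6 := (h2 c o s (by simp)).2
  have h7 := (h2 c (!o) s (by simp)).2
  cases o <;> cases o' <;> cases s <;> cases s' <;> simp_all

lemma r3_perm (u₀ u₁ u₂ u₃ : List Letter) (x y z : ℕ) (p q r a b c e : Bool) :
    (u₀ ++ dir a [(x, true, p), (y, true, q)] ++ u₁
          ++ arrange e (dir b [(x, false, p), (z, true, r)]) u₂
              (dir c [(y, false, q), (z, false, r)]) ++ u₃).Perm
      ((x, true, p) :: (x, !true, p) :: (y, true, q) :: (y, !true, q) :: (z, true, r) ::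
        (z, !true, r) :: (u₀ ++ u₁ ++ u₂ ++ u₃)) := by
  classical
  rw [List.perm_iff_count]
  intro l
  simp only [List.count_append, (perm_arrange _ _ _ _).count_eq, (perm_dir _ _).count_eq,
    List.count_cons, List.count_nil, Bool.not_true]
  ring

lemma P.r3 {u₀ u₁ u₂ u₃ K : List Letter} {x y z : ℕ} {p q r a b c e : Bool}
    (h₁ : xor p q = xor b c) (h₂ : xor p r = xor a c)
    (hG : IsGauss (u₀ ++ dir a [(x, true, p), (y, true, q)] ++ u₁
          ++ arrange e (dir b [(x, false, p), (z, true, r)]) u₂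
              (dir c [(y, false, q), (z, false, r)]) ++ u₃))
    (h : P (u₀ ++ dir a [(x, true, p), (y, true, q)] ++ u₁
          ++ arrange e (dir b [(x, false, p), (z, true, r)]) u₂
              (dir c [(y, false, q), (z, false, r)]) ++ u₃) K) :
    P (u₀ ++ dir (!a) [(x, true, p), (y, true, q)] ++ u₁
          ++ arrange e (dir (!b) [(x, false, p), (z, true, r)]) u₂
              (dir (!c) [(y, false, q), (z, false, r)]) ++ u₃) K := by
  set E := u₀ ++ dir a [(x, true, p), (y, true, q)] ++ u₁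
          ++ arrange e (dir b [(x, false, p), (z, true, r)]) u₂
              (dir c [(y, false, q), (z, false, r)]) ++ u₃ with hE
  have hp := r3_perm u₀ u₁ u₂ u₃ x y z p q r a b c e
  rw [← hE] at hp
  have hG1 := (isGauss_perm hp).1 hG
  have hxr := not_mem_of_gauss hG1
  have hG2 := (isGauss_cons_pair hxr).1 hG1
  have hyr := not_mem_of_gauss hG2
  have hG3 := (isGauss_cons_pair hyr).1 hG2
  have hzr := not_mem_of_gauss hG3
  simp only [labels_append, labels_cons, Finset.mem_insert, Finset.mem_union, not_or] at hxr hyr hzr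
  obtain ⟨hxy, -, hxz, -, ⟨⟨hxu0, hxu1⟩, hxu2⟩, hxu3⟩ := hxr
  obtain ⟨hyz, -, ⟨⟨hyu0, hyu1⟩, hyu2⟩, hyu3⟩ := hyr
  obtain ⟨⟨⟨hzu0, hzu1⟩, hzu2⟩, hzu3⟩ := hzr
  have hmemE : ∀ l : Letter, l ∈ ((x, true, p) :: (x, !true, p) :: (y, true, q) ::
      (y, !true, q) :: (z, true, r) :: (z, !true, r) :: (u₀ ++ u₁ ++ u₂ ++ u₃)) → l ∈ E :=
    fun l hl => hp.mem_iff.2 hl
  have hlabE : labels E = labels ((x, true, p) :: (x, !true, p) :: (y, true, q) ::
      (y, !true, q) :: (z, true, r) :: (z, !true, r) :: (u₀ ++ u₁ ++ u₂ ++ u₃)) := labels_perm hp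
  -- fresh labels
  obtain ⟨x₁, hx₁⟩ := Infinite.exists_notMem_finset (labels E)
  obtain ⟨x₂, hx₂⟩ := Infinite.exists_notMem_finset (labels E ∪ {x₁})
  obtain ⟨y₁, hy₁⟩ := Infinite.exists_notMem_finset (labels E ∪ {x₁, x₂})
  obtain ⟨y₂, hy₂⟩ := Infinite.exists_notMem_finset (labels E ∪ {x₁, x₂, y₁})
  simp only [Finset.mem_union, Finset.mem_insert, Finset.mem_singleton, not_or] at hx₂ hy₁ hy₂
  obtain ⟨hx₂, hx21⟩ := hx₂
  obtain ⟨hy₁, hy1x1, hy1x2⟩ := hy₁
  obtain ⟨hy₂, hy2x1, hy2x2, hy2y1⟩ := hy₂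
  have hfE : ∀ c' : ℕ, c' ∉ labels E → c' ≠ x ∧ c' ≠ y ∧ c' ≠ z ∧ c' ∉ labels u₀ ∧
      c' ∉ labels u₁ ∧ c' ∉ labels u₂ ∧ c' ∉ labels u₃ := by
    intro c' hc'
    rw [hlabE] at hc'
    simp only [labels_append, labels_cons, Finset.mem_insert, Finset.mem_union, not_or] at hc'
    tauto
  obtain ⟨hx1x, hx1y, hx1z, hx1u0, hx1u1, hx1u2, hx1u3⟩ := hfE _ hx₁
  obtain ⟨hx2x, hx2y, hx2z, hx2u0, hx2u1, hx2u2, hx2u3⟩ := hfE _ hx₂
  obtain ⟨hy1x, hy1y, hy1z, hy1u0, hy1u1, hy1u2, hy1u3⟩ := hfE _ hy₁
  obtain ⟨hy2x, hy2y, hy2z, hy2u0, hy2u1, hy2u2, hy2u3⟩ := hfE _ hy₂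
  -- substitution
  set La := dir a [(x₂, true, !p), (y₁, true, q), (x₁, true, p), (y₂, true, !q), (y, true, q)]
    with hLa
  set Lb := dir b [(x₂, false, !p), (z, true, r), (x₁, false, p)] with hLb
  set Lc := dir c [(y₂, false, !q), (z, false, r), (y₁, false, q)] with hLc
  set ψ := sub3 (y, true, q) La (z, true, r) Lb (z, false, r) Lc with hψ
  have hψ1 : ψ (y, true, q) = La := by simp [hψ, sub3]
  have hψ2 : ψ (z, true, r) = Lb := by simp [hψ, sub3, Ne.symm hyz]
  have hψ3 : ψ (z, false, r) = Lc := by simp [hψ, sub3]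
  have hxE : x ∈ labels E := by rw [hlabE]; simp
  have hyE : y ∈ labels E := by rw [hlabE]; simp
  have hzE : z ∈ labels E := by rw [hlabE]; simp
  have key : P (E.flatMap ψ) K := by
    refine P.subst (A₀ := labels E ∪ {x₁, x₂, y₁, y₂}) ?_ Finset.subset_union_left hG ?_ h
    · apply sub3_supp
      · exact Finset.mem_union_left _ hyE
      · exact Finset.mem_union_left _ hzE
      · exact Finset.mem_union_left _ hzE
      · intro t ht
        rw [hLa, labels_dir] at ht
        simp only [labels_cons, labels_nil, Finset.mem_insert, Finset.notMem_empty, or_false] at ht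
        simp only [Finset.mem_union, Finset.mem_insert, Finset.mem_singleton]
        rcases ht with rfl | rfl | rfl | rfl | rfl <;> tauto
      · intro t ht
        rw [hLb, labels_dir] at ht
        simp only [labels_cons, labels_nil, Finset.mem_insert, Finset.notMem_empty, or_false] at ht
        simp only [Finset.mem_union, Finset.mem_insert, Finset.mem_singleton]
        rcases ht with rfl | rfl | rfl <;> tauto
      · intro t ht
        rw [hLc, labels_dir] at ht
        simp only [labels_cons, labels_nil, Finset.mem_insert, Finset.notMem_empty, or_false] at ht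
        simp only [Finset.mem_union, Finset.mem_insert, Finset.mem_singleton]
        rcases ht with rfl | rfl | rfl <;> tauto
    · intro X hX hmem hlab
      obtain ⟨u, v, T₁, T₂, T₃, rfl, hvu, ⟨h1a, h1b, h1c⟩, ⟨h2a, h2b, h2c⟩, ⟨h3a, h3b, h3c⟩⟩ :=
        rot_split3 hX.1 (hmem (y, true, q) (hmemE _ (by simp)))
          (hmem (z, true, r) (hmemE _ (by simp))) (hmem (z, false, r) (hmemE _ (by simp)))
          (by simp [hyz]) (by simp) (by simp)
      apply R_flatMap_rot
      have hlab' : labels (u ++ v) = labels (v ++ u) := labels_perm List.perm_append_comm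
      have hfr : ∀ t, t ∉ labels E → t ∈ ({x₁, x₂, y₁, y₂} : Finset ℕ) → t ∉ labels (v ++ u) := by
        intro t ht ht' ht''
        exact ht (hlab t (hlab' ▸ ht'') (Finset.mem_union_right _ ht'))
      have f1 := hfr x₁ hx₁ (by simp)
      have f2 := hfr x₂ hx₂ (by simp)
      have f3 := hfr y₁ hy₁ (by simp)
      have f4 := hfr y₂ hy₂ (by simp)
      have hoff : ∀ T : List Letter, (y, true, q) ∉ T → (z, true, r) ∉ T → (z, false, r) ∉ T →
          T.flatMap ψ = T := fun T t1 t2 t3 => sub3_flatMap_off t1 t2 t3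
      have hT1 := hoff T₁ h1a h2a h3a
      have hT2 := hoff T₂ h1b h2b h3b
      have hT3 := hoff T₃ h1c h2c h3c
      rcases hvu with hvu | hvu
      · rw [hvu] at f1 f2 f3 f4 ⊢
        have core := r3_core T₁ T₂ T₃ a b c true p q r y z x₁ x₂ y₁ y₂ h₁ h₂ (Ne.symm hx21)
          (Ne.symm hy1x1) (Ne.symm hy2x1) (Ne.symm hy1x2) (Ne.symm hy2x2) (Ne.symm hy2y1)
          (by simp at f1 ⊢; tauto) (by simp at f2 ⊢; tauto) (by simp at f3 ⊢; tauto)
          (by simp at f4 ⊢; tauto)
        rw [← hLa, ← hLb, ← hLc] at core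
        simp only [List.flatMap_cons, List.flatMap_append, hT1, hT2, hT3, hψ1, hψ2, hψ3]
        simpa [arrange] using core
      · rw [hvu] at f1 f2 f3 f4 ⊢
        have core := r3_core T₁ T₂ T₃ a b c false p q r y z x₁ x₂ y₁ y₂ h₁ h₂ (Ne.symm hx21)
          (Ne.symm hy1x1) (Ne.symm hy2x1) (Ne.symm hy1x2) (Ne.symm hy2x2) (Ne.symm hy2y1)
          (by simp at f1 ⊢; tauto) (by simp at f2 ⊢; tauto) (by simp at f3 ⊢; tauto)
          (by simp at f4 ⊢; tauto)
        rw [← hLa, ← hLb, ← hLc] at core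
        simp only [List.flatMap_cons, List.flatMap_append, hT1, hT2, hT3, hψ1, hψ2, hψ3]
        simpa [arrange] using core
  -- compute the substituted word
  have hnl : ∀ {t : ℕ} {T : List Letter} {o s : Bool}, t ∉ labels T → (t, o, s) ∉ T :=
    fun ht hT => ht (mem_labels.2 ⟨_, _, hT⟩)
  have e0 : u₀.flatMap ψ = u₀ := sub3_flatMap_off (hnl hyu0) (hnl hzu0) (hnl hzu0)
  have e1 : u₁.flatMap ψ = u₁ := sub3_flatMap_off (hnl hyu1) (hnl hzu1) (hnl hzu1)
  have e2 : u₂.flatMap ψ = u₂ := sub3_flatMap_off (hnl hyu2) (hnl hzu2) (hnl hzu2)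
  have e3 : u₃.flatMap ψ = u₃ := sub3_flatMap_off (hnl hyu3) (hnl hzu3) (hnl hzu3)
  have hψx1 : ψ (x, true, p) = [(x, true, p)] := by simp [hψ, sub3, hxy, hxz]
  have hψx2 : ψ (x, false, p) = [(x, false, p)] := by simp [hψ, sub3, hxz]
  have hψy2 : ψ (y, false, q) = [(y, false, q)] := by simp [hψ, sub3, hyz]
  have eE : E.flatMap ψ = u₀ ++ dir a [(x, true, p), (x₂, true, !p), (y₁, true, q), (x₁, true, p),
        (y₂, true, !q), (y, true, q)] ++ u₁
          ++ arrange e (dir b [(x, false, p), (x₂, false, !p), (z, true, r), (x₁, false, p)]) u₂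
              (dir c [(y, false, q), (y₂, false, !q), (z, false, r), (y₁, false, q)]) ++ u₃ := by
    rw [hE]
    cases a <;> cases b <;> cases c <;> cases e <;>
      simp [dir, arrange, List.flatMap_append, List.flatMap_cons, e0, e1, e2, e3, hψ1, hψ2, hψ3,
        hψx1, hψx2, hψy2, hLa, hLb, hLc]
  rw [eE] at key
  -- remove the pair `x, x₂`
  have key2 : P (u₀ ++ dir a [(y₁, true, q), (x₁, true, p), (y₂, true, !q), (y, true, q)] ++ u₁
          ++ arrange e (dir b [(z, true, r), (x₁, false, p)]) u₂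
              (dir c [(y, false, q), (y₂, false, !q), (z, false, r), (y₁, false, q)]) ++ u₃) K := by
    have := P.of_r2_gen (K := K)
      (u := u₀ ++ (if a then [] else [(y, true, q), (y₂, true, !q), (x₁, true, p), (y₁, true, q)]))
      (v := (if a then [(y₁, true, q), (x₁, true, p), (y₂, true, !q), (y, true, q)] else []) ++ u₁
        ++ (if e then [] else
          dir c [(y, false, q), (y₂, false, !q), (z, false, r), (y₁, false, q)] ++ u₂)
        ++ (if b then [] else [(x₁, false, p), (z, true, r)]))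
      (w := (if b then [(z, true, r), (x₁, false, p)] else [])
        ++ (if e then u₂ ++
          dir c [(y, false, q), (y₂, false, !q), (z, false, r), (y₁, false, q)] else []) ++ u₃)
      (c := x) (d := x₂) (o := true) (s := p) (α := a) (β := b) (Ne.symm hx2x)
      (by cases a <;> cases b <;> cases e <;>
            simp [hxu0, hxu1, hxu2, hxu3, hxy, hxz, Ne.symm hx1x, Ne.symm hy1x, Ne.symm hy2x])
      (by cases a <;> cases b <;> cases e <;>
            simp [hx2u0, hx2u1, hx2u2, hx2u3, hx2y, hx2z, hx21, Ne.symm hy1x2, Ne.symm hy2x2])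
      (by cases a <;> cases b <;> cases e <;> simpa [dir, arrange] using key)
    cases a <;> cases b <;> cases e <;> simpa [dir, arrange] using this
  -- remove the pair `y₂, y`
  have key3 : P (u₀ ++ dir a [(y₁, true, q), (x₁, true, p)] ++ u₁
          ++ arrange e (dir b [(z, true, r), (x₁, false, p)]) u₂
              (dir c [(z, false, r), (y₁, false, q)]) ++ u₃) K := by
    have := P.of_r2_gen (K := K)
      (u := u₀ ++ (if a then [(y₁, true, q), (x₁, true, p)] else []))
      (v := (if a then [] else [(x₁, true, p), (y₁, true, q)]) ++ u₁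
        ++ (if e then dir b [(z, true, r), (x₁, false, p)] ++ u₂ else [])
        ++ (if c then [] else [(y₁, false, q), (z, false, r)]))
      (w := (if c then [(z, false, r), (y₁, false, q)] else [])
        ++ (if e then [] else u₂ ++ dir b [(z, true, r), (x₁, false, p)]) ++ u₃)
      (c := y₂) (d := y) (o := true) (s := !q) (α := a) (β := !c) hy2y
      (by cases a <;> cases c <;> cases e <;>
            simp [hy2u0, hy2u1, hy2u2, hy2u3, hy2z, hy2x1, hy2y1])
      (by cases a <;> cases c <;> cases e <;>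
            simp [hyu0, hyu1, hyu2, hyu3, hyz, Ne.symm hy1y, Ne.symm hx1y])
      (by cases a <;> cases b <;> cases c <;> cases e <;> simpa [dir, arrange] using key2)
    cases a <;> cases b <;> cases c <;> cases e <;> simpa [dir, arrange] using this
  -- rename
  have key4 := key3.rl ((Equiv.swap x₁ x).trans (Equiv.swap y₁ y))
  set σ : Equiv.Perm ℕ := (Equiv.swap x₁ x).trans (Equiv.swap y₁ y) with hσ
  have hσx : σ x₁ = x := by
    rw [hσ, Equiv.trans_apply, Equiv.swap_apply_left,
      Equiv.swap_apply_of_ne_of_ne (Ne.symm hy1x) hxy]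
  have hσy : σ y₁ = y := by
    rw [hσ, Equiv.trans_apply, Equiv.swap_apply_of_ne_of_ne hy1x1 hy1x, Equiv.swap_apply_left]
  have hσt : ∀ t, t ≠ x₁ → t ≠ x → t ≠ y₁ → t ≠ y → σ t = t := by
    intro t t1 t2 t3 t4
    rw [hσ, Equiv.trans_apply, Equiv.swap_apply_of_ne_of_ne t1 t2,
      Equiv.swap_apply_of_ne_of_ne t3 t4]
  have hσz : σ z = z := hσt z (Ne.symm hx1z) (Ne.symm hxz) (Ne.symm hy1z) (Ne.symm hyz)
  have hσT : ∀ T, x₁ ∉ labels T → x ∉ labels T → y₁ ∉ labels T → y ∉ labels T →
      MP_69d501_gt.rl σ T = T := by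
    intro T t1 t2 t3 t4
    apply rl_eq_self
    intro t ht
    apply hσt
    · rintro rfl; exact t1 ht
    · rintro rfl; exact t2 ht
    · rintro rfl; exact t3 ht
    · rintro rfl; exact t4 ht
  have g0 := hσT u₀ hx1u0 hxu0 hy1u0 hyu0
  have g1 := hσT u₁ hx1u1 hxu1 hy1u1 hyu1
  have g2 := hσT u₂ hx1u2 hxu2 hy1u2 hyu2
  have g3 := hσT u₃ hx1u3 hxu3 hy1u3 hyu3
  simp only [rl_append, rl_dir, rl_arrange, g0, g1, g2, g3] at key4
  have g4 : MP_69d501_gt.rl σ [(y₁, true, q), (x₁, true, p)] = [(y, true, q), (x, true, p)] := by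
    simp [MP_69d501_gt.rl, hσx, hσy]
  have g5 : MP_69d501_gt.rl σ [(z, true, r), (x₁, false, p)] = [(z, true, r), (x, false, p)] := by
    simp [MP_69d501_gt.rl, hσx, hσz]
  have g6 : MP_69d501_gt.rl σ [(z, false, r), (y₁, false, q)] = [(z, false, r), (y, false, q)] := by
    simp [MP_69d501_gt.rl, hσy, hσz]
  rw [g4, g5, g6] at key4
  cases a <;> cases b <;> cases c <;> cases e <;> simpa [dir, arrange] using key4


end Pool.Agent.Work.MP_69d501_gt
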