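import Mathlib

/-!
# Virtual knots as signed Gauss codes

A virtual knot diagram is recorded by its signed Gauss code: walk once around the knot and write
down the classical crossings met, over or under, with their signs.  Virtual crossings are not
recorded.  The virtual and mixed moves do not change the code, two diagrams with the same code
differ by such moves, and every code is realized by a diagram, so virtual knots are the codes
modulo the three classical Reidemeister moves (Kauffman; Goussarov, Polyak and Viro).
-/

set_option autoImplicit false

namespace Pool.Agent.Work.MP_69d501_gt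

/-- A letter of a Gauss code: the name of a crossing, whether it is passed over (`true`) or
under (`false`), and the sign of the crossing (`true` for positive). -/
abbrev Letter : Type := ℕ × Bool × Bool

/-- `w` is a Gauss code: every crossing that occurs in `w` occurs exactly twice, once over and
once under, with the same sign. -/
def IsGauss (w : List Letter) : Prop :=
  w.Nodup ∧ ∀ (c : ℕ) (o s : Bool), (c, o, s) ∈ w → (c, !o, s) ∈ w ∧ (c, o, !s) ∉ w

/-- The crossings that occur in `w`. -/
def labels (w : List Letter) : Finset ℕ := (w.map Prod.fst).toFinset

/-- `l` read forwards (`t = true`) or backwards (`t = false`). -/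
def dir (t : Bool) (l : List Letter) : List Letter := if t then l else l.reverse

/-- The blocks `M` and `B` separated by `u`, in this order if `e = true` and with `M` and `B`
exchanged if `e = false`. -/
def arrange (e : Bool) (M u B : List Letter) : List Letter :=
  if e then M ++ u ++ B else B ++ u ++ M

/-- The moves on (cyclic) Gauss codes.

* `rotate`: change of the starting point;
* `relabel`: renaming of the crossings;
* `r1`: first Reidemeister move, all variants: an isolated chord `c` is created;
* `r2`: second Reidemeister move, all variants: two new crossings `c`, `d` of opposite signs on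
  two strands; one strand passes over at both of them or under at both of them (`o`), and the
  other strand passes them in the same order (`t = true`) or in the opposite order (`t = false`);
* `r3`: third Reidemeister move, all variants.  The top strand is over at `x` and `y`, the middle
  strand is under at `x` and over at `z`, the bottom strand is under at `y` and `z`; the three
  crossings have signs `p`, `q`, `r`.  `a` says whether the top strand meets `x` before `y`, `b`
  whether the middle strand meets `x` before `z`, `c` whether the bottom strand meets `y` before
  `z`, and `e` whether the three strands are met in the cyclic order top, middle, bottom or top,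
  bottom, middle.  The two conditions on the signs say that the three oriented strands bound a
  triangle in the plane.  The move reverses the order of the two crossings on each strand. -/
inductive Move : List Letter → List Letter → Prop
  | rotate (u v : List Letter) : Move (u ++ v) (v ++ u)
  | relabel (σ : Equiv.Perm ℕ) (w : List Letter) : Move w (w.map fun l => (σ l.1, l.2))
  | r1 (u v : List Letter) (c : ℕ) (o s : Bool) (hc : c ∉ labels (u ++ v)) :
      Move (u ++ v) (u ++ [(c, o, s), (c, !o, s)] ++ v)
  | r2 (u v w : List Letter) (c d : ℕ) (o s t : Bool) (hcd : c ≠ d)
      (hc : c ∉ labels (u ++ v ++ w)) (hd : d ∉ labels (u ++ v ++ w)) :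
      Move (u ++ v ++ w)
        (u ++ [(c, o, s), (d, o, !s)] ++ v ++ dir t [(c, !o, s), (d, !o, !s)] ++ w)
  | r3 (u₀ u₁ u₂ u₃ : List Letter) (x y z : ℕ) (p q r : Bool) (a b c e : Bool)
      (h₁ : xor p q = xor b c) (h₂ : xor p r = xor a c) :
      Move
        (u₀ ++ dir a [(x, true, p), (y, true, q)] ++ u₁
          ++ arrange e (dir b [(x, false, p), (z, true, r)]) u₂
              (dir c [(y, false, q), (z, false, r)]) ++ u₃)
        (u₀ ++ dir (!a) [(x, true, p), (y, true, q)] ++ u₁
          ++ arrange e (dir (!b) [(x, false, p), (z, true, r)]) u₂
              (dir (!c) [(y, false, q), (z, false, r)]) ++ u₃)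

/-- Crossing change at the crossings in `C`: over and under are exchanged and the sign is
reversed. -/
def flipLetter (C : Finset ℕ) (l : Letter) : Letter :=
  if l.1 ∈ C then (l.1, !l.2.1, !l.2.2) else l

/-- The word obtained from `w` by changing the crossings in `C`. -/
def flip (C : Finset ℕ) (w : List Letter) : List Letter := w.map (flipLetter C)

lemma isGauss_nil : IsGauss [] := ⟨by simp, by simp⟩

lemma flipLetter_fst (C : Finset ℕ) (l : Letter) : (flipLetter C l).1 = l.1 := by
  unfold flipLetter; split <;> rfl

lemma flipLetter_of_not_mem {C : Finset ℕ} {l : Letter} (h : l.1 ∉ C) : flipLetter C l = l := by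
  unfold flipLetter; rw [if_neg h]

lemma flipLetter_flipLetter (C : Finset ℕ) (l : Letter) : flipLetter C (flipLetter C l) = l := by
  by_cases h : l.1 ∈ C
  · have h2 : flipLetter C l = (l.1, !l.2.1, !l.2.2) := by unfold flipLetter; rw [if_pos h]
    rw [h2]; unfold flipLetter; rw [if_pos h]; simp
  · rw [flipLetter_of_not_mem h, flipLetter_of_not_mem h]

lemma mem_flip {C : Finset ℕ} {w : List Letter} {l : Letter} :
    l ∈ flip C w ↔ flipLetter C l ∈ w := by
  unfold flip
  rw [List.mem_map]
  constructor
  · rintro ⟨l', h, rfl⟩
    rwa [flipLetter_flipLetter]
  · intro h
    exact ⟨_, h, flipLetter_flipLetter C l⟩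

lemma isGauss_flip {C : Finset ℕ} {w : List Letter} (h : IsGauss w) : IsGauss (flip C w) := by
  refine ⟨?_, ?_⟩
  · apply h.1.map
    intro l l' hl
    rw [← flipLetter_flipLetter C l, hl, flipLetter_flipLetter]
  · intro c o s hc
    rw [mem_flip] at hc
    rw [mem_flip, mem_flip]
    by_cases hcC : c ∈ C
    · simp only [flipLetter, hcC, if_true] at hc ⊢
      have h1 := h.2 _ _ _ hc
      simp only [Bool.not_not] at h1 ⊢
      exact h1
    · simp only [flipLetter, hcC, if_false] at hc ⊢
      exact h.2 _ _ _ hc

/-- A diagram (its Gauss code). -/
def Diagram : Type := {w : List Letter // IsGauss w}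

/-- Equivalence of diagrams: the equivalence relation generated by the moves. -/
instance diagramSetoid : Setoid Diagram :=
  Relation.EqvGen.setoid fun D E : Diagram => Move D.1 E.1

/-- A virtual knot: a diagram up to the moves. -/
def VirtualKnot : Type := Quotient diagramSetoid

/-- The virtual knot represented by a diagram. -/
def Diagram.knot (D : Diagram) : VirtualKnot := Quotient.mk diagramSetoid D

/-- The unknot, represented by the diagram without crossings. -/
def unknot : VirtualKnot := Diagram.knot ⟨[], isGauss_nil⟩

/-- The classical crossings of a diagram. -/
def Diagram.crossings (D : Diagram) : Finset ℕ := labels D.1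

/-- The diagram obtained from `D` by changing, all at once, the crossings in `C`. -/
def Diagram.change (C : Finset ℕ) (D : Diagram) : Diagram := ⟨flip C D.1, isGauss_flip D.2⟩

/-- The unknotting number: the least `|C|` over all diagrams `D` of `K` and all sets `C` of
crossings of `D` such that changing the crossings in `C` all at once gives a diagram of the
unknot; it is `⊤` if there is no such pair. -/
noncomputable def unknottingNumber (K : VirtualKnot) : ℕ∞ :=
  sInf {n : ℕ∞ | ∃ (D : Diagram) (C : Finset ℕ), D.knot = K ∧ C ⊆ D.crossings ∧
    (D.change C).knot = unknot ∧ n = (C.card : ℕ∞)}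

/-- `UnknotsIn D n`: there is a procedure that starts with the diagram `D`, alternates between
moves and changes of sets of crossings, ends with a diagram of the unknot, and uses `n` crossing
changes in total. -/
inductive UnknotsIn : Diagram → ℕ → Prop
  | done (D : Diagram) : D.knot = unknot → UnknotsIn D 0
  | moves (D E : Diagram) (n : ℕ) : D.knot = E.knot → UnknotsIn E n → UnknotsIn D n
  | changes (D : Diagram) (C : Finset ℕ) (n : ℕ) : C ⊆ D.crossings →
      UnknotsIn (D.change C) n → UnknotsIn D (C.card + n)

/-- The unknotting sequence number: the least total number of crossing changes of a procedure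
that unknots a diagram of `K`; it is `⊤` if there is none. -/
noncomputable def unknottingSequenceNumber (K : VirtualKnot) : ℕ∞ :=
  sInf {n : ℕ∞ | ∃ (D : Diagram) (m : ℕ), D.knot = K ∧ UnknotsIn D m ∧ n = (m : ℕ∞)}

end Pool.Agent.Work.MP_69d501_gt
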