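import Pool.Agent.Work.MP_69d501_gt.Core

set_option autoImplicit false

namespace Pool.Agent.Work.MP_69d501_gt

/-! ### invariance of the carried statement -/

lemma P.move {E E' K : List Letter} (h : Move E E') (hG : IsGauss E) : P E K ↔ P E' K := by
  cases h with
  | rotate u v => exact ⟨P.rot, P.rot⟩
  | relabel σ w =>
    refine ⟨fun h => h.rl σ, fun h => ?_⟩
    have := h.rl σ.symm
    rwa [MP_69d501_gt.rl, relabel_symm] at this
  | r1 u v c o s hc =>
    refine ⟨fun h => P.ins hG (free_r1 c o s) ?_ h, P.of_r1 hc⟩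
    intro x hx
    simp only [labels_cons, labels_nil, Finset.mem_insert, Finset.notMem_empty, or_false,
      or_self] at hx
    subst hx; exact hc
  | r2 u v w c d o s t hcd hc hd => exact ⟨P.r2_create hG hcd hc hd, P.of_r2 hcd hc hd⟩
  | r3 u₀ u₁ u₂ u₃ x y z p q r a b c e h₁ h₂ =>
    refine ⟨P.r3 h₁ h₂ hG, fun h => ?_⟩
    have hG' := (move_isGauss (Move.r3 u₀ u₁ u₂ u₃ x y z p q r a b c e h₁ h₂)).1 hG
    have h1' : xor p q = xor (!b) (!c) := by rw [h₁]; simp
    have h2' : xor p r = xor (!a) (!c) := by rw [h₂]; simp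
    have := P.r3 h1' h2' hG' h
    simpa using this

lemma P.equiv {E E' K : List Letter} (h : R E E') : IsGauss E → (P E K ↔ P E' K) := by
  induction h with
  | rel x y h => exact P.move h
  | refl x => intro _; exact Iff.rfl
  | symm x y h ih => intro hG; exact (ih ((R.isGauss h).2 hG)).symm
  | trans x y z h1 h2 ih1 ih2 => intro hG; exact (ih1 hG).trans (ih2 ((R.isGauss h1).1 hG))

lemma gauss_split {E : List Letter} (hG : IsGauss E) {c : ℕ} (hc : c ∈ labels E) :
    ∃ u v w o s, E = u ++ [(c, o, s)] ++ v ++ [(c, !o, s)] ++ w ∧ c ∉ labels (u ++ v ++ w) := by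
  rw [mem_labels] at hc
  obtain ⟨o, s, h⟩ := hc
  have h' := (hG.2 c o s h).1
  have key : ∃ u v w o s, E = u ++ [(c, o, s)] ++ v ++ [(c, !o, s)] ++ w := by
    obtain ⟨u, v, rfl⟩ := List.append_of_mem h
    rw [List.mem_append, List.mem_cons] at h'
    rcases h' with h' | h' | h'
    · obtain ⟨u₁, u₂, rfl⟩ := List.append_of_mem h'
      refine ⟨u₁, u₂, v, !o, s, ?_⟩
      simp
    · simp at h'
    · obtain ⟨v₁, v₂, rfl⟩ := List.append_of_mem h'
      refine ⟨u, v₁, v₂, o, s, ?_⟩
      simp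
  obtain ⟨u, v, w, o, s, rfl⟩ := key
  refine ⟨u, v, w, o, s, rfl, ?_⟩
  have hp := perm_r2 u v w [(c, o, s)] [(c, !o, s)]
  exact not_mem_of_gauss ((isGauss_perm hp).1 hG)

lemma P.init {D : List Letter} (hD : IsGauss D) {c : ℕ} (hc : c ∈ labels D) :
    P (flip {c} D) D := by
  have hG : IsGauss (flip {c} D) := isGauss_flip hD
  have hcE : c ∈ labels (flip {c} D) := by simpa using hc
  have hDE : flip {c} (flip {c} D) = D := flip_flip _ _
  generalize flip {c} D = E at hG hcE hDE
  subst hDE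
  obtain ⟨u, v, w, o, s, rfl, hcr⟩ := gauss_split hG hcE
  intro A hA
  obtain ⟨c₁, hc₁⟩ := Infinite.exists_notMem_finset A
  obtain ⟨c₂, hc₂⟩ := Infinite.exists_notMem_finset (A ∪ {c₁})
  simp only [Finset.mem_union, Finset.mem_singleton, not_or] at hc₂
  obtain ⟨hc₂, hc21⟩ := hc₂
  have hcA : c ∈ A := hA hcE
  have f1 : c₁ ∉ labels (u ++ [(c, o, s)] ++ v ++ [(c, !o, s)] ++ w) := fun h => hc₁ (hA h)
  have f2 : c₂ ∉ labels (u ++ [(c, o, s)] ++ v ++ [(c, !o, s)] ++ w) := fun h => hc₂ (hA h)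
  have hst := Step.r2 (A := A) (u ++ [(c, o, s)]) (v ++ [(c, !o, s)]) w c₁ c₂ o (!s) true hc₁ hc₂
    (Ne.symm hc21) (by simpa using f1) (by simpa using f2)
  simp only [Bool.not_not] at hst
  refine ⟨u ++ [(c, o, s)] ++ [(c₁, o, !s), (c₂, o, s)] ++ (v ++ [(c, !o, s)]) ++
    dir true [(c₁, !o, !s), (c₂, !o, s)] ++ w, c₂, ?_, ?_, hc₂, ?_⟩
  · rw [← List.append_assoc (u ++ [(c, o, s)]) v] at hst
    exact Relation.ReflTransGen.single hst
  · simp [dir]
  · simp only [labels_append, labels_cons, labels_nil, Finset.mem_union, Finset.mem_insert,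
      Finset.notMem_empty, or_false, not_or] at f1 f2 hcr
    obtain ⟨⟨⟨⟨f1a, f1b⟩, f1c⟩, -⟩, f1d⟩ := f1
    obtain ⟨⟨⟨⟨f2a, f2b⟩, f2c⟩, -⟩, f2d⟩ := f2
    obtain ⟨⟨ca, cb⟩, cc⟩ := hcr
    have hself : ∀ (t : ℕ) (T : List Letter), t ∉ labels T → flip {t} T = T := by
      intro t T ht
      apply flip_eq_self
      intro x hx
      rw [Finset.mem_singleton]; rintro rfl; exact ht hx
    have fl1 : ∀ (t : ℕ) (o s : Bool), flipLetter {t} (t, o, s) = (t, !o, !s) := by
      intro t o s; simp [flipLetter]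
    have fl2 : ∀ (t t' : ℕ) (o s : Bool), t' ≠ t → flipLetter {t} (t', o, s) = (t', o, s) := by
      intro t t' o s h; simp [flipLetter, h]
    have e1 : flip {c₂} (u ++ [(c, o, s)] ++ [(c₁, o, !s), (c₂, o, s)] ++ (v ++ [(c, !o, s)]) ++
        dir true [(c₁, !o, !s), (c₂, !o, s)] ++ w) =
        u ++ dir true [(c, o, s), (c₁, o, !s)] ++ ([(c₂, !o, !s)] ++ v) ++
          dir true [(c, !o, s), (c₁, !o, !s)] ++ ([(c₂, o, !s)] ++ w) := by
      simp only [dir, if_true, flip_append, flip_cons, flip_nil, fl1, fl2 c₂ c _ _ (Ne.symm f2b),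
        fl2 c₂ c₁ _ _ (Ne.symm hc21), hself c₂ u f2a, hself c₂ v f2c, hself c₂ w f2d]
      simp
    rw [e1]
    have h2 := r2_gen u ([(c₂, !o, !s)] ++ v) ([(c₂, o, !s)] ++ w) c c₁ o s true true
      (Ne.symm f1b)
      (by simp [ca, cb, cc, Ne.symm f2b])
      (by simp [f1a, f1c, f1d, Ne.symm hc21])
    refine h2.symm.trans ?_
    have h3 := R.rl (Equiv.swap c₂ c) (u ++ ([(c₂, !o, !s)] ++ v) ++ ([(c₂, o, !s)] ++ w))
    refine h3.trans ?_
    have hT : ∀ T, c ∉ labels T → c₂ ∉ labels T → MP_69d501_gt.rl (Equiv.swap c₂ c) T = T := by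
      intro T t1 t2
      apply rl_eq_self
      intro t ht
      apply Equiv.swap_apply_of_ne_of_ne
      · rintro rfl; exact t2 ht
      · rintro rfl; exact t1 ht
    have e2 : MP_69d501_gt.rl (Equiv.swap c₂ c) (u ++ ([(c₂, !o, !s)] ++ v) ++ ([(c₂, o, !s)] ++ w)) =
        flip {c} (u ++ [(c, o, s)] ++ v ++ [(c, !o, s)] ++ w) := by
      simp only [rl_append, hT u ca f2a, hT v cb f2c, hT w cc f2d, flip_append, hself c u ca,
        hself c v cb, hself c w cc, flip_cons, flip_nil, fl1]
      simp [MP_69d501_gt.rl]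
    rw [e2]
    exact R.refl _

lemma single_change {D E : List Letter} (hD : IsGauss D) {c : ℕ} (hc : c ∈ labels D)
    (hR : R (flip {c} D) E) {C : Finset ℕ} (hC : C ⊆ labels E) :
    ∃ (D' : List Letter) (C' : Finset ℕ), R D D' ∧ C' ⊆ labels D' ∧ C'.card = C.card + 1 ∧
      R (flip C' D') (flip C E) := by
  have h := (P.equiv hR (isGauss_flip hD)).1 (P.init hD hc)
  obtain ⟨W, m, h1, h2, h3, h4⟩ := h (labels E) (Finset.Subset.refl _)
  refine ⟨flip {m} W, C ∪ {m}, h4.symm, ?_, ?_, ?_⟩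
  · intro x hx
    rw [labels_flip]
    rw [Finset.mem_union, Finset.mem_singleton] at hx
    rcases hx with hx | rfl
    · exact h1.labels_subset (hC hx)
    · exact h2
  · rw [Finset.card_union_of_disjoint]
    · simp
    · rw [Finset.disjoint_singleton_right]
      exact fun h => h3 (hC h)
  · rw [← flip_flip_of_disjoint, flip_flip]
    · have hS : Supp (labels E) (fun l => [flipLetter C l]) := by
        refine ⟨?_, ?_⟩
        · intro l hl
          rw [flipLetter_of_not_mem (fun h => hl (hC h))]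
        · intro l hl l' hl'
          rw [List.mem_singleton] at hl'
          subst hl'
          rw [flipLetter_fst]; exact hl
      have h5 := (h1.subst hS).R
      have h6 : ∀ X : List Letter, X.flatMap (fun l => [flipLetter C l]) = flip C X := by
        intro X
        induction X with
        | nil => rfl
        | cons l X ih => rw [List.flatMap_cons, ih]; rfl
      rw [h6, h6] at h5
      exact h5.symm
    · rw [Finset.disjoint_singleton_right]
      exact fun h => h3 (hC h)

lemma many_changes (C : Finset ℕ) : ∀ (D E : List Letter) (_ : IsGauss D) (_ : C ⊆ labels D)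
    (_ : R (flip C D) E) (B : Finset ℕ) (_ : B ⊆ labels E),
    ∃ (D' : List Letter) (C' : Finset ℕ), R D D' ∧ C' ⊆ labels D' ∧ C'.card = C.card + B.card ∧
      R (flip C' D') (flip B E) := by
  induction C using Finset.induction_on with
  | empty =>
    intro D E hD _ hR B hB
    rw [flip_eq_self (by simp)] at hR
    exact ⟨E, B, hR, hB, by simp, R.refl _⟩
  | insert c C hc ih =>
    intro D E hD hCD hR B hB
    have hcD : c ∈ labels D := hCD (Finset.mem_insert_self _ _)
    have h1 : flip (insert c C) D = flip C (flip {c} D) := by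
      rw [flip_flip_of_disjoint (Finset.disjoint_singleton_right.2 hc), Finset.union_comm,
        Finset.insert_eq]
    rw [h1] at hR
    obtain ⟨D₁, C₁, h2, h3, h4, h5⟩ := ih (flip {c} D) E (isGauss_flip hD)
      (by rw [labels_flip]; exact fun x hx => hCD (Finset.mem_insert_of_mem hx)) hR B hB
    obtain ⟨D₂, C₂, h6, h7, h8, h9⟩ := single_change hD hcD h2 h3
    refine ⟨D₂, C₂, h6, h7, ?_, h9.trans h5⟩
    rw [h8, h4, Finset.card_insert_of_notMem hc]; ring

lemma knot_eq_iff {D E : Diagram} : D.knot = E.knot ↔ R D.1 E.1 := by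
  constructor
  · intro h
    have h' : Relation.EqvGen (fun D E : Diagram => Move D.1 E.1) D E :=
      Quotient.exact (s := diagramSetoid) h
    clear h
    induction h' with
    | rel x y h => exact R.of_move h
    | refl x => exact R.refl _
    | symm x y _ ih => exact ih.symm
    | trans x y z _ _ ih1 ih2 => exact ih1.trans ih2
  · intro h
    have key : ∀ {X Y : List Letter}, R X Y → ∀ (hX : IsGauss X) (hY : IsGauss Y),
        Relation.EqvGen (fun D E : Diagram => Move D.1 E.1) ⟨X, hX⟩ ⟨Y, hY⟩ := by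
      intro X Y h
      induction h with
      | rel x y h => intro hX hY; exact Relation.EqvGen.rel _ _ h
      | refl x => intro hX hY; exact Relation.EqvGen.refl _
      | symm x y _ ih => intro hX hY; exact Relation.EqvGen.symm _ _ (ih hY hX)
      | trans x y z h1 _ ih1 ih2 =>
        intro hX hZ
        have hY := (R.isGauss h1).1 hX
        exact Relation.EqvGen.trans _ _ _ (ih1 hX hY) (ih2 hY hZ)
    exact Quotient.sound (s := diagramSetoid) (key h D.2 E.2)

lemma exists_of_unknotsIn {D : Diagram} {n : ℕ} (h : UnknotsIn D n) :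
    ∃ (E : Diagram) (C : Finset ℕ), D.knot = E.knot ∧ C ⊆ E.crossings ∧ C.card = n ∧
      (E.change C).knot = unknot := by
  induction h with
  | done D h =>
    refine ⟨D, ∅, rfl, by simp, by simp, ?_⟩
    have : D.change ∅ = D := Subtype.ext (flip_eq_self (by simp))
    rw [this, h]
  | moves D E n h _ ih =>
    obtain ⟨F, C, h1, h2, h3, h4⟩ := ih
    exact ⟨F, C, h.trans h1, h2, h3, h4⟩
  | changes D C n hC _ ih =>
    obtain ⟨E, B, h1, h2, h3, h4⟩ := ih
    rw [knot_eq_iff] at h1
    obtain ⟨D', C', h5, h6, h7, h8⟩ := many_changes C D.1 E.1 D.2 hC h1 B h2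
    refine ⟨⟨D', (R.isGauss h5).1 D.2⟩, C', knot_eq_iff.2 h5, h6, by rw [h7, h3], ?_⟩
    rw [← h4]
    exact knot_eq_iff.2 h8


end Pool.Agent.Work.MP_69d501_gt
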